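import Pool.Agent.Helper51.SS.Suff

namespace Pool.Agent.Helper51.SS

open Finset

theorem count_main' (p c M q : ℕ) (hp : p.Prime) (hM : 0 < M) (hq : 0 < q) (t : ℕ)
    (s m n N : ℕ) (hs : s = p ^ (c + 1)) (hm : m = s * M) (hn : n = m * q) (hN : N = M * q)
    (w : ZMod m) :
    (-1) ^ t * ((cnt ((Ico 1 n).powersetCard t) ssum m w : ℤ) -
      cnt ((Ico 1 n).powersetCard t) (fun T => ssum T + p ^ c * M) m w) =
    (-1) ^ (t / s) *
      ((cnt ((Ico 1 N).powersetCard (t / s)) (fun L => s * ssum L) m w : ℤ) -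
      cnt ((Ico 1 N).powersetCard (t / s)) (fun L => s * ssum L + p ^ c * M) m w) := by
  subst hs hm hn hN
  exact count_main p c M q hp hM hq t w

theorem cnt_add (n t g : ℕ) (z : ZMod n) :
    cnt ((Ico 1 n).powersetCard t) (fun T => ssum T + g) n z = b n t (z - g) := by
  unfold b cnt
  congr 1
  ext T
  simp only [Finset.mem_filter, and_congr_right_iff]
  intro _
  push_cast
  rw [eq_sub_iff_add_eq]

theorem cnt_fiber (n m : ℕ) [NeZero n] (hmn : m ∣ n) (F : Finset (Finset ℕ)) (f : Finset ℕ → ℕ)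
    (w : ZMod m) :
    cnt F f m w = ∑ z ∈ (Finset.univ : Finset (ZMod n)).filter (fun z => ZMod.castHom hmn (ZMod m) z = w),
      cnt F f n z := by
  unfold cnt
  have hmaps : ∀ T ∈ F.filter (fun T => ((f T : ℕ) : ZMod m) = w), ((f T : ℕ) : ZMod n) ∈
      (Finset.univ : Finset (ZMod n)).filter (fun z => ZMod.castHom hmn (ZMod m) z = w) := by
    intro T hT
    rw [Finset.mem_filter] at hT ⊢
    refine ⟨Finset.mem_univ _, ?_⟩
    rw [map_natCast]; exact hT.2
  rw [Finset.card_eq_sum_card_fiberwise hmaps]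
  refine Finset.sum_congr rfl fun z hz => ?_
  congr 1
  ext T
  simp only [Finset.mem_filter]
  constructor
  · rintro ⟨⟨h1, _⟩, h3⟩; exact ⟨h1, h3⟩
  · rintro ⟨h1, h3⟩
    refine ⟨⟨h1, ?_⟩, h3⟩
    rw [Finset.mem_filter] at hz
    rw [← hz.2, ← h3, map_natCast]

/-- Key necessity lemma. -/
theorem nec (p c M q t : ℕ) (hp : p.Prime) (hM : 0 < M) (hq : 0 < q) (hpM : ¬ p ∣ M)
    (n : ℕ) [NeZero n] (hn : n = p ^ (c + 1) * M * q) (x : ZMod n)
    (hdes : ∀ u : ZMod n, b n t (x + ((p ^ c * M : ℕ) : ZMod n) * u) = b n t x)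
    (L : Finset ℕ) (hL : L ∈ (Ico 1 (M * q)).powersetCard (t / p ^ (c + 1)))
    (u0 : ZMod n) (hLx : ((p ^ (c + 1) * ssum L : ℕ) : ZMod n) = x + ((p ^ c * M : ℕ) : ZMod n) * u0) :
    False := by
  set m := p ^ (c + 1) * M with hm
  have hmn : m ∣ n := ⟨q, hn⟩
  set w : ZMod m := ((p ^ (c + 1) * ssum L : ℕ) : ZMod m) with hw
  have hmain := count_main' p c M q hp hM hq t _ m n _ rfl hm hn rfl w
  have hfib : ∀ z : ZMod n, ZMod.castHom hmn (ZMod m) z = w → ∃ u, z = x + ((p ^ c * M : ℕ) : ZMod n) * u := by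
    intro z hz
    have h1 : ((z.val : ℕ) : ZMod m) = ((p ^ (c + 1) * ssum L : ℕ) : ZMod m) := by
      rw [← hw, ← hz, ← map_natCast (ZMod.castHom hmn (ZMod m))]
      simp
    have h2 := (ZMod.natCast_eq_natCast_iff _ _ m).mp h1
    have h3 : (m : ℤ) ∣ (z.val : ℤ) - (p ^ (c + 1) * ssum L : ℕ) :=
      (Int.modEq_iff_dvd.mp (Int.natCast_modEq_iff.mpr h2.symm))
    obtain ⟨v, hv⟩ := h3
    have h4 : z = ((p ^ (c + 1) * ssum L : ℕ) : ZMod n) + (m : ZMod n) * (v : ZMod n) := by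
      have h5 : ((z.val : ℤ) : ZMod n) = (((p ^ (c + 1) * ssum L : ℕ) : ℤ) : ZMod n) + (m : ZMod n) * (v : ZMod n) := by
        have : (z.val : ℤ) = (p ^ (c + 1) * ssum L : ℕ) + m * v := by linarith
        rw [this]; push_cast; ring
      rw [Int.cast_natCast, Int.cast_natCast, ZMod.natCast_val, ZMod.cast_id', id_eq] at h5
      exact h5
    refine ⟨u0 + (p : ZMod n) * v, ?_⟩
    rw [h4, hLx, hm]
    push_cast
    ring
  have hL1 : cnt ((Ico 1 n).powersetCard t) ssum m w =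
      cnt ((Ico 1 n).powersetCard t) (fun T => ssum T + p ^ c * M) m w := by
    rw [cnt_fiber n m hmn, cnt_fiber n m hmn]
    refine Finset.sum_congr rfl fun z hz => ?_
    rw [cnt_add]
    obtain ⟨u, hu⟩ := hfib z (Finset.mem_filter.mp hz).2
    have e1 : cnt ((Ico 1 n).powersetCard t) ssum n z = b n t x := by
      rw [hu]; exact hdes u
    have e2 : b n t (z - ((p ^ c * M : ℕ) : ZMod n)) = b n t x := by
      rw [← hdes (u - 1), hu]
      congr 1; ring
    rw [e1, e2]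
  rw [hL1, sub_self, mul_zero] at hmain
  have h5 : ((-1 : ℤ) ^ (t / p ^ (c + 1))) ≠ 0 := by positivity
  have h6 := (mul_eq_zero.mp hmain.symm).resolve_left h5
  have h7 : cnt ((Ico 1 (M * q)).powersetCard (t / p ^ (c + 1)))
      (fun L => p ^ (c + 1) * ssum L + p ^ c * M) m w = 0 := by
    unfold cnt
    rw [Finset.card_eq_zero, Finset.filter_eq_empty_iff]
    intro T _ hT
    rw [hw] at hT
    have h8 := (ZMod.natCast_eq_natCast_iff _ _ m).mp hT
    have h9 : p ^ (c + 1) * ssum T + p ^ c * M ≡ p ^ (c + 1) * ssum L [MOD p ^ (c + 1)] :=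
      h8.of_dvd ⟨M, rfl⟩
    have h10 : p ^ c * M ≡ 0 [MOD p ^ (c + 1)] := by
      have h11 : p ^ (c + 1) * ssum T + p ^ c * M ≡ 0 + p ^ c * M [MOD p ^ (c + 1)] :=
        Nat.ModEq.add_right _ ((Nat.modEq_zero_iff_dvd).mpr (dvd_mul_right _ _))
      have h12 : p ^ (c + 1) * ssum L ≡ 0 [MOD p ^ (c + 1)] :=
        (Nat.modEq_zero_iff_dvd).mpr (dvd_mul_right _ _)
      rw [zero_add] at h11
      exact h11.symm.trans (h9.trans h12)
    rw [Nat.modEq_zero_iff_dvd, pow_succ] at h10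
    exact hpM (Nat.dvd_of_mul_dvd_mul_left (pow_pos hp.pos c) h10)
  have h8 : 0 < cnt ((Ico 1 (M * q)).powersetCard (t / p ^ (c + 1)))
      (fun L => p ^ (c + 1) * ssum L) m w := by
    unfold cnt
    rw [Finset.card_pos]
    exact ⟨L, Finset.mem_filter.mpr ⟨hL, rfl⟩⟩
  rw [h7] at h6
  push_cast at h6
  omega

/-- sufficiency of the second criterion -/
theorem suff2 (n : ℕ) [NeZero n] (k : ℕ) (hk : 1 ≤ k) (hkn : k < n) (x : ZMod n)
    (q : ℕ) (hq : q.Prime) (hnq : n / n.gcd k = q) (hgx : ((n.gcd k : ℕ) : ZMod n) ∣ x)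
    (h1 : q ^ n.factorization q < k) (h2 : k < 2 * q ^ n.factorization q) :
    IsOneDesign (blocks n k x) := by
  rw [design_iff n k hk hkn x]
  have hn : 0 < n := Nat.pos_of_ne_zero (NeZero.ne n)
  obtain ⟨c, M, r, hc, hM0, hr0, hnn, hgg, hqM, hqk, hqk1⟩ :=
    structure_at n k q hn hk hq (by rw [hnq])
  have hr1 : r = 1 := by
    have h3 : n / n.gcd k = q * r := by
      rw [hgg, hnn]
      have : q ^ (c + 1) * M * r = (q ^ c * M) * (q * r) := by ring
      rw [this, Nat.mul_div_cancel_left _ (Nat.mul_pos (pow_pos hq.pos _) hM0)]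
    rw [hnq] at h3
    have h4 : q * 1 = q * r := by rw [mul_one]; exact h3
    exact (Nat.eq_of_mul_eq_mul_left hq.pos h4).symm
  subst hr1
  rw [mul_one] at hnn
  have hfac : n.factorization q = c + 1 := by
    rw [hnn, Nat.factorization_mul (pow_pos hq.pos _).ne' hM0.ne', hq.factorization_pow]
    simp [Nat.factorization_eq_zero_of_not_dvd hqM]
  rw [hfac] at h1 h2
  set s := q ^ (c + 1) with hs
  have hs0 : 0 < s := pow_pos hq.pos _
  have hdiv : (k - 1) / s = 1 := by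
    rw [Nat.div_eq_iff hs0]
    omega
  subst hnn
  have hstep : ∀ z : ZMod (s * M), ((q ^ c * M : ℕ) : ZMod (s * M)) ∣ z →
      b (s * M) (k - 1) z = b (s * M) (k - 1) (z - ((q ^ c * M : ℕ) : ZMod (s * M))) := by
    intro z hz
    have hmain := count_main' q c M 1 hq hM0 one_pos (k - 1) s (s * M) (s * M) M hs rfl
      (mul_one _).symm (mul_one _).symm z
    rw [hdiv] at hmain
    have hzero : ∀ v : ℕ, q ^ c * M ∣ v → cnt ((Ico 1 M).powersetCard 1)
        (fun L => s * ssum L + v) (s * M) z = 0 := by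
      intro v hv
      unfold cnt
      rw [Finset.card_eq_zero, Finset.filter_eq_empty_iff]
      intro T hT hTz
      rw [Finset.mem_powersetCard] at hT
      obtain ⟨j, rfl⟩ := Finset.card_eq_one.mp hT.2
      have hj := Finset.mem_Ico.mp (hT.1 (Finset.mem_singleton_self j))
      have e1 : ssum {j} = j := by simp [ssum]
      have hTz : ((s * ssum {j} + v : ℕ) : ZMod (s * M)) = z := hTz
      rw [e1] at hTz
      have e2 : z = ((z.val : ℕ) : ZMod (s * M)) := by simp
      have e3 : q ^ c * M ∣ z.val := by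
        obtain ⟨y, hy⟩ := hz
        have e4 : ((z.val : ℕ) : ZMod (s * M)) = ((q ^ c * M * y.val : ℕ) : ZMod (s * M)) := by
          rw [← e2, hy]; push_cast; simp
        have e5 := (ZMod.natCast_eq_natCast_iff _ _ _).mp e4
        have e6 : z.val ≡ q ^ c * M * y.val [MOD (q ^ c * M)] := e5.of_dvd ⟨q, by rw [hs]; ring⟩
        have e7 : q ^ c * M * y.val ≡ 0 [MOD (q ^ c * M)] :=
          Nat.modEq_zero_iff_dvd.mpr (dvd_mul_right _ _)
        exact Nat.modEq_zero_iff_dvd.mp (e6.trans e7)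
      rw [e2] at hTz
      have e5 := (ZMod.natCast_eq_natCast_iff _ _ _).mp hTz
      have e6 : s * j + v ≡ z.val [MOD M] := e5.of_dvd ⟨s, by ring⟩
      have e7 : z.val ≡ 0 [MOD M] := Nat.modEq_zero_iff_dvd.mpr (dvd_trans ⟨q ^ c, by ring⟩ e3)
      have e8 : M ∣ s * j + v := Nat.modEq_zero_iff_dvd.mp (e6.trans e7)
      have e9 : M ∣ s * j := (Nat.dvd_add_left (dvd_trans ⟨q ^ c, by ring⟩ hv)).mp e8
      have e10 : Nat.Coprime M s := by
        rw [hs]
        exact Nat.Coprime.pow_right _ ((Nat.Prime.coprime_iff_not_dvd hq).mpr hqM).symm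
      have e11 : M ∣ j := e10.dvd_of_dvd_mul_left e9
      exact absurd (Nat.le_of_dvd (by omega) e11) (by omega)
    have hz1 := hzero 0 (dvd_zero _)
    have hz2 := hzero (q ^ c * M) dvd_rfl
    simp only [add_zero] at hz1
    rw [hz1, hz2, cnt_add] at hmain
    have h5 : ((-1 : ℤ) ^ (k - 1)) ≠ 0 := by positivity
    have h6 : ((-1 : ℤ) ^ (k - 1)) * ((cnt ((Ico 1 (s * M)).powersetCard (k - 1)) ssum (s * M) z : ℤ) -
      (b (s * M) (k - 1) (z - ((q ^ c * M : ℕ) : ZMod (s * M))) : ℤ)) = 0 := by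
      rw [hmain]; simp
    have h7 := (mul_eq_zero.mp h6).resolve_left h5
    unfold b
    unfold b at h7
    omega
  rw [hgg] at hgx ⊢
  have h3 : ∀ e : ℕ, b (s * M) (k - 1) (x + ((q ^ c * M : ℕ) : ZMod (s * M)) * (e : ZMod (s * M))) =
      b (s * M) (k - 1) x := by
    intro e
    induction e with
    | zero => simp
    | succ e ih =>
      rw [← ih, hstep]
      · congr 1; push_cast; ring
      · exact dvd_add hgx (dvd_mul_right _ _)
  intro u
  have h4 := h3 u.val
  rwa [ZMod.natCast_val, ZMod.cast_id', id_eq] at h4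

end Pool.Agent.Helper51.SS
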