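import Mathlib

namespace Pool.Agent.Helper51.SS

open Finset Polynomial

variable {R : Type*} [CommRing R]

theorem coeff_prod_one_sub {ι : Type*} (S : Finset ι) (f : ι → R) (t : ℕ) :
    (∏ i ∈ S, (1 - C (f i) * X)).coeff t = (-1) ^ t * ∑ T ∈ S.powersetCard t, ∏ i ∈ T, f i := by
  classical
  have h1 : (∏ i ∈ S, (1 - C (f i) * X)) = ∑ T ∈ S.powerset, C ((-1) ^ T.card * ∏ i ∈ T, f i) * X ^ T.card := by
    have : ∀ i ∈ S, (1 - C (f i) * X : R[X]) = 1 + (C (- f i) * X) := by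
      intro i _; simp [sub_eq_add_neg]
    rw [Finset.prod_congr rfl this, Finset.prod_one_add]
    refine Finset.sum_congr rfl fun T _ => ?_
    rw [Finset.prod_mul_distrib, Finset.prod_const, ← map_prod]
    congr 2
    rw [Finset.prod_neg]
  rw [h1, Polynomial.finsetSum_coeff]
  simp only [Polynomial.coeff_C_mul_X_pow]
  rw [Finset.mul_sum, ← Finset.sum_filter]
  have h2 : S.powerset.filter (fun T => t = T.card) = S.powersetCard t := by
    ext T; simp only [Finset.mem_filter, Finset.mem_powerset, Finset.mem_powersetCard]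
    tauto
  rw [h2]
  refine Finset.sum_congr rfl fun T hT => ?_
  rw [(Finset.mem_powersetCard.mp hT).2]

/-- The full product over the powers of a root of unity. -/
noncomputable def rot (ζ : R) (n : ℕ) : R[X] := ∏ i ∈ range n, (1 - C (ζ ^ i) * X)

theorem rot_comp (ζ : R) (n : ℕ) (h : ζ ^ n = 1) :
    (rot ζ n).comp (C ζ * X) = rot ζ n := by
  unfold rot
  cases n with
  | zero => simp
  | succ m =>
    rw [Polynomial.prod_comp, Finset.prod_range_succ, Finset.prod_range_succ']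
    congr 1
    · refine Finset.prod_congr rfl fun i _ => ?_
      simp only [sub_comp, one_comp, mul_comp, C_comp, X_comp]
      rw [← mul_assoc, ← C_mul, pow_succ]
    · simp only [sub_comp, one_comp, mul_comp, C_comp, X_comp]
      rw [← mul_assoc, ← C_mul, ← pow_succ, h, pow_zero]

theorem pow_mul_coeff_rot (ζ : R) (n : ℕ) (h : ζ ^ n = 1) (t : ℕ) :
    ζ ^ t * (rot ζ n).coeff t = (rot ζ n).coeff t := by
  conv_rhs => rw [← rot_comp ζ n h, Polynomial.comp_C_mul_X_coeff]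
  ring

theorem exists_mul_modEq {t n m : ℕ} (hn : 0 < n) (h : Nat.gcd t n ∣ m) :
    ∃ u : ℕ, t * u ≡ m [MOD n] := by
  obtain ⟨q, rfl⟩ := h
  have hb := Nat.gcd_eq_gcd_ab t n
  refine ⟨((Nat.gcdA t n * q) % n).toNat, ?_⟩
  rw [← Int.natCast_modEq_iff]
  push_cast
  rw [Int.toNat_of_nonneg (Int.emod_nonneg _ (by omega))]
  calc (t : ℤ) * ((Nat.gcdA t n * q) % n) ≡ t * (Nat.gcdA t n * q) [ZMOD n] :=
        (Int.ModEq.refl _).mul (Int.mod_modEq _ _)
    _ ≡ (t * Nat.gcdA t n + n * Nat.gcdB t n) * q [ZMOD n] := by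
        have : (t : ℤ) * (Nat.gcdA t n * q) = (t * Nat.gcdA t n + n * Nat.gcdB t n) * q - n * (Nat.gcdB t n * q) := by ring
        rw [this]
        exact (Int.modEq_iff_dvd.mpr ⟨Nat.gcdB t n * q, by ring⟩)
    _ = (Nat.gcd t n : ℤ) * q := by rw [← hb]

theorem shift_coeff_rot (ζ : R) (n : ℕ) (hn : 0 < n) (h : ζ ^ n = 1) (t m : ℕ)
    (hd : Nat.gcd t n ∣ m) :
    ζ ^ m * (rot ζ n).coeff t = (rot ζ n).coeff t := by
  obtain ⟨u, hu⟩ := exists_mul_modEq hn hd
  have h1 : ∀ v : ℕ, (ζ ^ t) ^ v * (rot ζ n).coeff t = (rot ζ n).coeff t := by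
    intro v
    induction v with
    | zero => simp
    | succ v ih => rw [pow_succ, mul_assoc, pow_mul_coeff_rot ζ n h, ih]
  have h2 : ζ ^ m = ζ ^ (t * u) := by
    rw [← pow_mod_orderOf ζ m, ← pow_mod_orderOf ζ (t * u)]
    congr 1
    have : orderOf ζ ∣ n := orderOf_dvd_of_pow_eq_one h
    exact (hu.symm.of_dvd this)
  rw [h2, pow_mul, h1]

/-- the block identity -/
theorem block (ζ : R) (p c : ℕ) (hp : p.Prime) (h : ζ ^ (p ^ (c + 1)) = 1) :
    C (1 - ζ ^ (p ^ c)) * rot ζ (p ^ (c + 1)) = C (1 - ζ ^ (p ^ c)) * (1 - X ^ (p ^ (c + 1))) := by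
  set s := p ^ (c + 1) with hs
  have hs0 : 0 < s := pow_pos hp.pos _
  set ε : R := 1 - ζ ^ (p ^ c) with hε
  have key : ∀ t, 0 < t → t < s → ε * (rot ζ s).coeff t = 0 := by
    intro t ht0 hts
    rw [hε, sub_mul, one_mul, shift_coeff_rot ζ s hs0 h t (p ^ c), sub_self]
    have : Nat.gcd t s ∣ p ^ (c + 1) := Nat.gcd_dvd_right _ _
    obtain ⟨j, hj, hj2⟩ := (Nat.dvd_prime_pow hp).mp this
    rw [hj2]
    apply pow_dvd_pow
    by_contra hcon
    have hj3 : j = c + 1 := by omega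
    rw [hj3] at hj2
    have h4 : s ∣ t := by rw [hs, ← hj2]; exact Nat.gcd_dvd_left _ _
    exact absurd (Nat.le_of_dvd ht0 h4) (by omega)
  have h0 : (rot ζ s).coeff 0 = 1 := by
    unfold rot
    rw [coeff_prod_one_sub]; simp
  have hbig : ∀ t, s < t → (rot ζ s).coeff t = 0 := by
    intro t ht
    unfold rot
    rw [coeff_prod_one_sub, Finset.powersetCard_eq_empty.mpr (by simpa using ht)]; simp
  have h1 : C ε * rot ζ s = C ε * (1 + C ((rot ζ s).coeff s) * X ^ s) := by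
    ext t
    rw [coeff_C_mul, coeff_C_mul, coeff_add, coeff_one, coeff_C_mul_X_pow]
    rcases Nat.eq_zero_or_pos t with rfl | ht0
    · rw [h0]; simp [hs0.ne]
    · rcases lt_trichotomy t s with hlt | heq | hgt
      · rw [key t ht0 hlt]; simp [ht0.ne', hlt.ne]
      · subst heq; simp [ht0.ne']
      · rw [hbig t hgt]; simp [ht0.ne', hgt.ne']
  have h2 : (rot ζ s).eval 1 = 0 := by
    unfold rot
    rw [Polynomial.eval_prod]
    apply Finset.prod_eq_zero (i := 0) (by simpa using hs0)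
    simp
  have h3 : ε * (1 + (rot ζ s).coeff s) = 0 := by
    have := congrArg (Polynomial.eval 1) h1
    simp only [eval_mul, eval_C, h2, mul_zero, eval_add, eval_one, eval_pow, eval_X, one_pow, mul_one] at this
    exact this.symm
  have h4 : ε * (rot ζ s).coeff s = - ε := by linear_combination h3
  rw [h1, mul_add, ← mul_assoc, ← C_mul, h4, C_neg]
  ring

/-! ### splitting a product over a long range -/

theorem prod_range_periodic {M : Type*} [CommMonoid M] (f : ℕ → M) (m q : ℕ)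
    (hf : ∀ i, f (i + m) = f i) :
    ∏ i ∈ range (m * q), f i = (∏ i ∈ range m, f i) ^ q := by
  have hf' : ∀ q i, f (m * q + i) = f i := by
    intro q i
    induction q with
    | zero => simp
    | succ q ih => rw [mul_add, mul_one, add_right_comm, hf, ih]
  induction q with
  | zero => simp
  | succ q ih =>
    rw [mul_add, mul_one, Finset.prod_range_add, ih, pow_succ]
    congr 1
    exact Finset.prod_congr rfl fun i _ => hf' q i

theorem prod_range_mul_split {M : Type*} [CommMonoid M] (f : ℕ → M) (m s : ℕ) :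
    ∏ i ∈ range (s * m), f i = ∏ j ∈ range m, ∏ i ∈ range s, f (j + m * i) := by
  induction s with
  | zero => simp
  | succ s ih =>
    rw [add_mul, one_mul, Finset.prod_range_add, ih]
    simp_rw [Finset.prod_range_succ]
    rw [Finset.prod_mul_distrib]
    congr 1
    refine Finset.prod_congr rfl fun i _ => ?_
    rw [add_comm, mul_comm]

theorem mul_prod_congr {A : Type*} [CommRing A] {ι : Type*} (S : Finset ι) (ε : A) (a b : ι → A)
    (h : ∀ i ∈ S, ε * a i = ε * b i) : ε * ∏ i ∈ S, a i = ε * ∏ i ∈ S, b i := by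
  classical
  induction S using Finset.induction_on with
  | empty => simp
  | insert i S hi ih =>
    rw [Finset.prod_insert hi, Finset.prod_insert hi, ← mul_assoc, h i (by simp), mul_assoc,
      mul_left_comm, ih (fun j hj => h j (by simp [hj]))]
    ring

theorem mul_pow_congr {A : Type*} [CommRing A] (ε a b : A) (q : ℕ)
    (h : ε * a = ε * b) : ε * a ^ q = ε * b ^ q := by
  have := mul_prod_congr (range q) ε (fun _ => a) (fun _ => b) (fun _ _ => h)
  simpa using this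

/-- main identity, before cancelling the factor `1 - X` -/
theorem main0 (ζ : R) (p c M q : ℕ) (hp : p.Prime) (h : ζ ^ (p ^ (c + 1) * M) = 1) :
    C (1 - ζ ^ (p ^ c * M)) * ∏ i ∈ range (p ^ (c + 1) * M * q), (1 - C (ζ ^ i) * X) =
      C (1 - ζ ^ (p ^ c * M)) * ∏ j ∈ range (M * q),
        (1 - C (ζ ^ (p ^ (c + 1) * j)) * X ^ (p ^ (c + 1))) := by
  set s := p ^ (c + 1) with hs
  rw [prod_range_periodic _ (s * M) q (fun i => by rw [pow_add, h, mul_one]),
    prod_range_periodic _ M q (fun j => by rw [mul_add, pow_add, h, mul_one]),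
    prod_range_mul_split]
  apply mul_pow_congr
  apply mul_prod_congr
  intro j _
  have hb := block (ζ ^ M) p c hp (by rw [← pow_mul, mul_comm, ← hs, h])
  rw [← hs] at hb
  have hb2 := congrArg (fun P : R[X] => P.comp (C (ζ ^ j) * X)) hb
  simp only [mul_comp, C_comp, sub_comp, one_comp, pow_comp, X_comp] at hb2
  unfold rot at hb2
  rw [Polynomial.prod_comp] at hb2
  simp only [mul_comp, C_comp, sub_comp, one_comp, X_comp] at hb2
  rw [← pow_mul, mul_comm M (p ^ c)] at hb2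
  convert hb2 using 2
  · refine Finset.prod_congr rfl fun i _ => ?_
    rw [← mul_assoc, ← C_mul, pow_add, pow_mul, mul_comm (ζ ^ j)]
  · rw [mul_pow, ← C_pow, ← pow_mul, mul_comm j s]

/-- main identity. -/
theorem main1 (ζ : R) (p c M q : ℕ) (hp : p.Prime) (hM : 0 < M) (hq : 0 < q)
    (h : ζ ^ (p ^ (c + 1) * M) = 1) :
    C (1 - ζ ^ (p ^ c * M)) * ∏ i ∈ Ico 1 (p ^ (c + 1) * M * q), (1 - C (ζ ^ i) * X) =
      C (1 - ζ ^ (p ^ c * M)) * ((∑ i ∈ range (p ^ (c + 1)), X ^ i) * ∏ j ∈ Ico 1 (M * q),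
        (1 - C (ζ ^ (p ^ (c + 1) * j)) * X ^ (p ^ (c + 1)))) := by
  have h0 := main0 ζ p c M q hp h
  have hs0 : 0 < p ^ (c + 1) := pow_pos hp.pos _
  have e1 : ∀ (f : ℕ → R[X]) (m : ℕ), 0 < m → ∏ i ∈ range m, f i = f 0 * ∏ i ∈ Ico 1 m, f i := by
    intro f m hm
    rw [Finset.range_eq_Ico, Finset.prod_eq_prod_Ico_succ_bot hm]
  rw [e1 _ _ (by positivity), e1 _ _ (by positivity)] at h0
  simp only [pow_zero, C_1, one_mul, mul_zero] at h0
  have h1 : (1 - X ^ (p ^ (c + 1)) : R[X]) = (1 - X) * ∑ i ∈ range (p ^ (c + 1)), X ^ i := by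
    rw [mul_neg_geom_sum]
  rw [h1] at h0
  have h2 : (X - C (1 : R)).Monic := monic_X_sub_C 1
  have h3 : ∀ P Q : R[X], (1 - X) * P = (1 - X) * Q → P = Q := by
    intro P Q hPQ
    apply h2.isRegular.left
    show (X - C 1) * P = (X - C 1) * Q
    rw [C_1]
    linear_combination - hPQ
  apply h3
  linear_combination h0

/-- The coefficient form of the main identity. -/
theorem main2 (ζ : R) (p c M q : ℕ) (hp : p.Prime) (hM : 0 < M) (hq : 0 < q)
    (h : ζ ^ (p ^ (c + 1) * M) = 1) (t : ℕ) :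
    (1 - ζ ^ (p ^ c * M)) * ((-1) ^ t * ∑ T ∈ (Ico 1 (p ^ (c + 1) * M * q)).powersetCard t,
        ζ ^ (∑ i ∈ T, i)) =
      (1 - ζ ^ (p ^ c * M)) * ((-1) ^ (t / p ^ (c + 1)) *
        ∑ L ∈ (Ico 1 (M * q)).powersetCard (t / p ^ (c + 1)),
        ζ ^ (p ^ (c + 1) * ∑ j ∈ L, j)) := by
  have h0 := congrArg (fun P : R[X] => P.coeff t) (main1 ζ p c M q hp hM hq h)
  simp only [coeff_C_mul] at h0
  rw [coeff_prod_one_sub] at h0
  have hs0 : 0 < p ^ (c + 1) := pow_pos hp.pos _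
  set s := p ^ (c + 1) with hs
  have h1 : (∏ j ∈ Ico 1 (M * q), (1 - C (ζ ^ (s * j)) * X ^ s) : R[X]) =
      expand R s (∏ j ∈ Ico 1 (M * q), (1 - C (ζ ^ (s * j)) * X)) := by
    rw [map_prod]
    refine Finset.prod_congr rfl fun j _ => ?_
    simp
  have h2 : ∀ Q : R[X], ((∑ i ∈ range s, X ^ i) * expand R s Q).coeff t = Q.coeff (t / s) := by
    intro Q
    rw [Finset.sum_mul, Polynomial.finsetSum_coeff]
    simp only [coeff_X_pow_mul', coeff_expand hs0]
    rw [Finset.sum_eq_single (t % s)]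
    · rw [if_pos (Nat.mod_le _ _), if_pos (Nat.dvd_sub_mod t)]
      congr 1
      conv_lhs => rw [← Nat.div_add_mod t s]
      simp only [Nat.mul_add_mod_self_left, Nat.mod_mod, Nat.add_sub_cancel]
      rw [Nat.mul_div_cancel_left _ hs0]
    · intro i hi hne
      split_ifs with h5 h6
      · exfalso
        apply hne
        have h7 : i < s := by simpa using hi
        have h8 : t % s = i % s := by
          obtain ⟨w, hw⟩ := h6
          have : t = i + s * w := by omega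
          rw [this]; simp
        rw [h8, Nat.mod_eq_of_lt h7]
      · rfl
      · rfl
    · intro h5
      exact absurd (Finset.mem_range.mpr (Nat.mod_lt _ hs0)) h5
  rw [h1, h2, coeff_prod_one_sub] at h0
  have e3 : ∀ (f : ℕ → ℕ) (T : Finset ℕ), ∏ i ∈ T, ζ ^ (f i) = ζ ^ (∑ i ∈ T, f i) :=
    fun f T => Finset.prod_pow_eq_pow_sum T f ζ
  have e4 := e3 (fun i => i)
  have e5 : ∀ T : Finset ℕ, ∏ i ∈ T, ζ ^ (s * i) = ζ ^ (s * ∑ i ∈ T, i) := by
    intro T; rw [e3, Finset.mul_sum]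
  simp only [e4, e5] at h0
  exact h0

/-- The low identity. -/
theorem low (ζ : R) (n : ℕ) (hn : 0 < n) (h : ζ ^ n = 1) (w t : ℕ)
    (hw : ∀ j, 0 < j → j ≤ t → Nat.gcd j n ∣ w) :
    (1 - ζ ^ w) * ((-1) ^ t * ∑ T ∈ (Ico 1 n).powersetCard t, ζ ^ (∑ i ∈ T, i)) = 1 - ζ ^ w := by
  have e1 : rot ζ n = (1 - X) * ∏ i ∈ Ico 1 n, (1 - C (ζ ^ i) * X) := by
    unfold rot
    rw [Finset.range_eq_Ico, Finset.prod_eq_prod_Ico_succ_bot hn]
    simp
  have e3 : ∀ (T : Finset ℕ), ∏ i ∈ T, ζ ^ i = ζ ^ (∑ i ∈ T, i) :=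
    fun T => Finset.prod_pow_eq_pow_sum T (fun i => i) ζ
  have e2 : ∀ t, (∏ i ∈ Ico 1 n, (1 - C (ζ ^ i) * X) : R[X]).coeff t =
      (-1) ^ t * ∑ T ∈ (Ico 1 n).powersetCard t, ζ ^ (∑ i ∈ T, i) := by
    intro t
    rw [coeff_prod_one_sub]
    simp only [e3]
  induction t with
  | zero => simp
  | succ t ih =>
    have e4 := congrArg (fun P : R[X] => P.coeff (t + 1)) e1
    simp only [sub_mul, one_mul, coeff_sub, coeff_X_mul, e2] at e4
    have e5 : (-1) ^ (t + 1) * ∑ T ∈ (Ico 1 n).powersetCard (t + 1), ζ ^ (∑ i ∈ T, i) =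
        (rot ζ n).coeff (t + 1) +
        (-1) ^ t * ∑ T ∈ (Ico 1 n).powersetCard t, ζ ^ (∑ i ∈ T, i) := by
      rw [e4]; ring
    rw [e5, mul_add, ih (fun j h1 h2 => hw j h1 (by omega)), sub_mul, one_mul,
      shift_coeff_rot ζ n hn h (t + 1) w (hw _ (by omega) le_rfl)]
    ring

end Pool.Agent.Helper51.SS
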