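import Pool.Agent.Helper51.SS.Gen

namespace Pool.Agent.Helper51.SS

open Finset Polynomial

theorem exists_functional (m : ℕ) (w : ZMod m) :
    ∃ φ : AddMonoidAlgebra ℤ (ZMod m) →+ ℤ, ∀ a : ℕ,
      φ ((AddMonoidAlgebra.single (1 : ZMod m) (1 : ℤ)) ^ a) = if (a : ZMod m) = w then 1 else 0 := by
  classical
  refine ⟨(Finsupp.applyAddHom w).comp
    (AddMonoidAlgebra.coeffAddEquiv (R := ℤ) (M := ZMod m)).toAddMonoidHom, fun a => ?_⟩
  rw [AddMonoidAlgebra.single_pow]
  simp [Finsupp.single_apply]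

theorem single_pow_eq_one (m : ℕ) :
    (AddMonoidAlgebra.single (1 : ZMod m) (1 : ℤ)) ^ m = 1 := by
  rw [AddMonoidAlgebra.single_pow]
  simp [AddMonoidAlgebra.one_def]

/-- number of members `T` of a family with sum `≡ w`. -/
def cnt {ι : Type*} (F : Finset ι) (f : ι → ℕ) (m : ℕ) (w : ZMod m) : ℕ :=
  (F.filter (fun T => ((f T : ℕ) : ZMod m) = w)).card

theorem functional_sum {ι : Type*} (F : Finset ι) (f : ι → ℕ) (m : ℕ) (w : ZMod m)
    (φ : AddMonoidAlgebra ℤ (ZMod m) →+ ℤ)
    (hφ : ∀ a : ℕ, φ ((AddMonoidAlgebra.single (1 : ZMod m) (1 : ℤ)) ^ a) =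
      if (a : ZMod m) = w then 1 else 0) (d e : ℕ) :
    φ ((1 - (AddMonoidAlgebra.single (1 : ZMod m) (1 : ℤ)) ^ d) * ((-1) ^ e *
      ∑ T ∈ F, (AddMonoidAlgebra.single (1 : ZMod m) (1 : ℤ)) ^ (f T))) =
      (-1) ^ e * ((cnt F f m w : ℤ) - cnt F (fun T => f T + d) m w) := by
  set ζ := (AddMonoidAlgebra.single (1 : ZMod m) (1 : ℤ)) with hζ
  have h1 : φ ((1 - ζ ^ d) * ∑ T ∈ F, ζ ^ (f T)) =
      (cnt F f m w : ℤ) - cnt F (fun T => f T + d) m w := by
    rw [sub_mul, one_mul, Finset.mul_sum, map_sub, map_sum, map_sum]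
    unfold cnt
    rw [Finset.card_filter, Finset.card_filter]
    push_cast
    congr 1
    · refine Finset.sum_congr rfl fun T _ => ?_
      rw [hφ]
    · refine Finset.sum_congr rfl fun T _ => ?_
      rw [← pow_add, add_comm d, hφ]
      push_cast
      rfl
  rcases Nat.even_or_odd e with he | he
  · rw [he.neg_one_pow, he.neg_one_pow, one_mul, one_mul, h1]
  · rw [he.neg_one_pow, he.neg_one_pow, neg_mul, neg_mul, one_mul, one_mul, mul_neg, map_neg, h1]

/-- sum of a finite set of naturals -/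
def ssum (T : Finset ℕ) : ℕ := ∑ i ∈ T, i

/-- The counting form of the main identity. -/
theorem count_main (p c M q : ℕ) (hp : p.Prime) (hM : 0 < M) (hq : 0 < q) (t : ℕ)
    (w : ZMod (p ^ (c + 1) * M)) :
    (-1) ^ t * ((cnt ((Ico 1 (p ^ (c + 1) * M * q)).powersetCard t) ssum _ w : ℤ) -
      cnt ((Ico 1 (p ^ (c + 1) * M * q)).powersetCard t) (fun T => ssum T + p ^ c * M) _ w) =
    (-1) ^ (t / p ^ (c + 1)) *
      ((cnt ((Ico 1 (M * q)).powersetCard (t / p ^ (c + 1))) (fun L => p ^ (c + 1) * ssum L) _ w : ℤ) -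
      cnt ((Ico 1 (M * q)).powersetCard (t / p ^ (c + 1)))
        (fun L => p ^ (c + 1) * ssum L + p ^ c * M) _ w) := by
  obtain ⟨φ, hφ⟩ := exists_functional _ w
  have h := main2 (AddMonoidAlgebra.single (1 : ZMod (p ^ (c + 1) * M)) (1 : ℤ)) p c M q hp hM hq
    (single_pow_eq_one _) t
  rw [← functional_sum _ _ _ w φ hφ, ← functional_sum _ _ _ w φ hφ]
  exact congrArg φ h

/-- The counting form of the low identity. -/
theorem count_low (n : ℕ) (hn : 0 < n) (w t : ℕ)
    (hw : ∀ j, 0 < j → j ≤ t → Nat.gcd j n ∣ w) (z : ZMod n) (hz : z ≠ 0) (hzw : z ≠ w) :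
    cnt ((Ico 1 n).powersetCard t) ssum n z = cnt ((Ico 1 n).powersetCard t) ssum n (z - w) := by
  obtain ⟨φ, hφ⟩ := exists_functional _ z
  have h := low (AddMonoidAlgebra.single (1 : ZMod n) (1 : ℤ)) n hn (single_pow_eq_one _) w t hw
  have h2 := congrArg φ h
  have h3 := functional_sum ((Ico 1 n).powersetCard t) ssum _ z φ hφ w t
  unfold ssum at h3
  rw [h3] at h2
  have h4 : φ (1 - (AddMonoidAlgebra.single (1 : ZMod n) (1 : ℤ)) ^ w) = 0 := by
    have h5 := hφ 0
    have h6 := hφ w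
    rw [pow_zero] at h5
    rw [map_sub, h5, h6, if_neg (by simpa using hz.symm), if_neg (by simpa using hzw.symm)]
    simp
  rw [h4] at h2
  have h7 : ((-1 : ℤ) ^ t) ≠ 0 := by positivity
  have h8 := (mul_eq_zero.mp h2).resolve_left h7
  have h9 : cnt ((Ico 1 n).powersetCard t) (fun T => ssum T + w) n z =
      cnt ((Ico 1 n).powersetCard t) ssum n (z - w) := by
    unfold cnt
    congr 1
    ext T
    simp only [Finset.mem_filter, and_congr_right_iff]
    intro _
    push_cast
    rw [eq_sub_iff_add_eq]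
  have h10 : (cnt ((Ico 1 n).powersetCard t) ssum n z : ℤ) =
      cnt ((Ico 1 n).powersetCard t) (fun T => ssum T + w) n z := by
    exact sub_eq_zero.mp h8
  rw [← h9]
  exact_mod_cast h10

theorem bridge (n : ℕ) [NeZero n] (k : ℕ) (hk : 1 ≤ k) (x y : ZMod n) :
    (((Finset.powersetCard k (Finset.univ : Finset (ZMod n))).filter
      (fun T => ∑ t ∈ T, t = x)).filter (fun T => y ∈ T)).card =
    cnt ((Ico 1 n).powersetCard (k - 1)) ssum n (x - k * y) := by
  have hn : 0 < n := Nat.pos_of_ne_zero (NeZero.ne n)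
  unfold cnt
  have hinj1 : Function.Injective (fun t : ZMod n => (t - y).val) := by
    intro a b hab
    have := ZMod.val_injective n hab
    exact sub_left_injective this
  have hinj2 : ∀ U : Finset ℕ, U ⊆ Ico 1 n →
      Set.InjOn (fun i : ℕ => ((i : ZMod n) + y)) (insert 0 U : Finset ℕ) := by
    intro U hU a ha b hb hab
    have h1 : (a : ZMod n) = b := add_right_cancel hab
    have hlt : ∀ c ∈ (insert 0 U : Finset ℕ), c < n := by
      intro c hc
      rcases Finset.mem_insert.mp hc with rfl | hc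
      · exact hn
      · exact (Finset.mem_Ico.mp (hU hc)).2
    have h2 := (ZMod.natCast_eq_natCast_iff a b n).mp h1
    exact Nat.ModEq.eq_of_lt_of_lt h2 (hlt a ha) (hlt b hb)
  refine Finset.card_nbij' (fun T => (T.image (fun t => (t - y).val)).erase 0)
    (fun U => (insert 0 U).image (fun i : ℕ => ((i : ZMod n) + y))) ?_ ?_ ?_ ?_
  · intro T hT
    simp only [Finset.coe_filter, Finset.mem_filter, Finset.mem_powersetCard, Set.mem_ofPred_eq] at hT ⊢
    obtain ⟨⟨⟨_, hc⟩, hs⟩, hy⟩ := hT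
    have h0 : 0 ∈ T.image (fun t => (t - y).val) :=
      Finset.mem_image.mpr ⟨y, hy, by simp⟩
    refine ⟨⟨?_, ?_⟩, ?_⟩
    · intro i hi
      rw [Finset.mem_erase, Finset.mem_image] at hi
      obtain ⟨hi0, t, _, rfl⟩ := hi
      exact Finset.mem_Ico.mpr ⟨Nat.pos_of_ne_zero hi0, ZMod.val_lt _⟩
    · rw [Finset.card_erase_of_mem h0, Finset.card_image_of_injective _ hinj1, hc]
    · unfold ssum
      rw [Finset.sum_erase (s := T.image (fun t => (t - y).val)) (f := fun i : ℕ => i) (a := 0) rfl,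
        Finset.sum_image (fun a _ b _ h => hinj1 h)]
      push_cast
      simp only [ZMod.natCast_val, ZMod.cast_id', id_eq]
      rw [Finset.sum_sub_distrib, hs, Finset.sum_const, hc, nsmul_eq_mul]
  · intro U hU
    simp only [Finset.coe_filter, Finset.mem_filter, Finset.mem_powersetCard, Set.mem_ofPred_eq] at hU ⊢
    obtain ⟨⟨hU1, hc⟩, hs⟩ := hU
    have h0 : 0 ∉ U := fun h => by
      have := Finset.mem_Ico.mp (hU1 h)
      omega
    have hcard : (insert 0 U).card = k := by
      rw [Finset.card_insert_of_notMem h0, hc]; omega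
    refine ⟨⟨⟨Finset.subset_univ _, ?_⟩, ?_⟩, ?_⟩
    · rw [Finset.card_image_of_injOn (hinj2 U hU1), hcard]
    · rw [Finset.sum_image (hinj2 U hU1), Finset.sum_add_distrib, Finset.sum_const, hcard,
        Finset.sum_insert h0]
      unfold ssum at hs
      push_cast at hs
      rw [Nat.cast_zero, zero_add, hs, nsmul_eq_mul]
      ring
    · exact Finset.mem_image.mpr ⟨0, by simp, by simp⟩
  · intro T hT
    simp only [Finset.coe_filter, Finset.mem_filter, Finset.mem_powersetCard, Set.mem_ofPred_eq] at hT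
    obtain ⟨⟨⟨_, hc⟩, hs⟩, hy⟩ := hT
    have h0 : 0 ∈ T.image (fun t => (t - y).val) :=
      Finset.mem_image.mpr ⟨y, hy, by simp⟩
    show Finset.image _ (insert 0 (Finset.erase _ 0)) = T
    rw [Finset.insert_erase h0, Finset.image_image]
    conv_rhs => rw [← Finset.image_id (s := T)]
    refine Finset.image_congr fun t _ => ?_
    simp
  · intro U hU
    simp only [Finset.coe_filter, Finset.mem_filter, Finset.mem_powersetCard, Set.mem_ofPred_eq] at hU
    obtain ⟨⟨hU1, hc⟩, hs⟩ := hU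
    have h0 : 0 ∉ U := fun h => by
      have := Finset.mem_Ico.mp (hU1 h)
      omega
    show (Finset.image _ (Finset.image _ (insert 0 U))).erase 0 = U
    rw [Finset.image_image]
    have : Finset.image ((fun t : ZMod n => (t - y).val) ∘ fun i : ℕ => ((i : ZMod n) + y)) (insert 0 U)
        = insert 0 U := by
      conv_rhs => rw [← Finset.image_id (s := insert 0 U)]
      refine Finset.image_congr ?_
      intro i hi
      simp only [Function.comp_apply, add_sub_cancel_right, id_eq]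
      apply ZMod.val_cast_of_lt
      rcases Finset.mem_insert.mp (Finset.mem_coe.mp hi) with rfl | hi
      · exact hn
      · exact (Finset.mem_Ico.mp (hU1 hi)).2
    rw [this, Finset.erase_insert h0]

end Pool.Agent.Helper51.SS
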