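import Mathlib

namespace Pool.Agent.Helper51.SS

open Finset

/-- sums of `κ`-subsets of `{1,…,m}` fill a whole interval -/
theorem exists_sum (m : ℕ) : ∀ κ j : ℕ, κ ≤ m → j ≤ κ * (m - κ) →
    ∃ L ∈ (Ico 1 (m + 1)).powersetCard κ, ∑ i ∈ L, i = ∑ i ∈ range κ, (i + 1) + j := by
  induction m with
  | zero =>
    intro κ j h1 h2
    have : κ = 0 := by omega
    subst this
    have : j = 0 := by simpa using h2
    subst this
    exact ⟨∅, by simp, by simp⟩
  | succ m ih =>
    intro κ j h1 h2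
    by_cases hcase : κ ≤ m ∧ j ≤ κ * (m - κ)
    · obtain ⟨L, hL, hs⟩ := ih κ j hcase.1 hcase.2
      refine ⟨L, ?_, hs⟩
      rw [Finset.mem_powersetCard] at hL ⊢
      exact ⟨hL.1.trans (Finset.Ico_subset_Ico le_rfl (by omega)), hL.2⟩
    · -- use the element `m+1`
      rcases Nat.eq_zero_or_pos κ with rfl | hκ
      · exfalso; apply hcase; simpa using h2
      obtain ⟨κ', rfl⟩ : ∃ κ', κ = κ' + 1 := ⟨κ - 1, by omega⟩
      obtain ⟨d, hd⟩ : ∃ d, m = κ' + d := ⟨m - κ', by omega⟩
      subst hd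
      have h3 : κ' + d + 1 - (κ' + 1) = d := by omega
      rw [h3] at h2
      have h4 : d ≤ j := by
        by_contra hlt
        apply hcase
        refine ⟨by omega, ?_⟩
        obtain ⟨d', rfl⟩ : ∃ d', d = d' + 1 := ⟨d - 1, by omega⟩
        have : κ' + (d' + 1) - (κ' + 1) = d' := by omega
        rw [this]
        nlinarith
      obtain ⟨L, hL, hs⟩ := ih κ' (j - d) (by omega) (by
        have : κ' + d - κ' = d := by omega
        rw [this]
        have : j - d ≤ (κ' + 1) * d - d := by omega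
        calc j - d ≤ (κ' + 1) * d - d := this
          _ = κ' * d := by rw [add_mul, one_mul]; omega)
      rw [Finset.mem_powersetCard] at hL
      have hnot : κ' + d + 1 ∉ L := fun h => by
        have := Finset.mem_Ico.mp (hL.1 h); omega
      refine ⟨insert (κ' + d + 1) L, ?_, ?_⟩
      · rw [Finset.mem_powersetCard]
        refine ⟨?_, by rw [Finset.card_insert_of_notMem hnot, hL.2]⟩
        intro i hi
        rcases Finset.mem_insert.mp hi with rfl | hi
        · exact Finset.mem_Ico.mpr ⟨by omega, by omega⟩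
        · have := Finset.mem_Ico.mp (hL.1 hi)
          exact Finset.mem_Ico.mpr ⟨by omega, by omega⟩
      · rw [Finset.sum_insert hnot, hs, Finset.sum_range_succ]
        omega

theorem exists_sum_mod (m κ M : ℕ) (hM : 0 < M) (hκ : κ ≤ m) (h : M ≤ κ * (m - κ) + 1)
    (r : ZMod M) :
    ∃ L ∈ (Ico 1 (m + 1)).powersetCard κ, ((∑ i ∈ L, i : ℕ) : ZMod M) = r := by
  have : NeZero M := ⟨hM.ne'⟩
  set r' : ZMod M := r - ((∑ i ∈ range κ, (i + 1) : ℕ) : ZMod M) with hr'
  have h1 : r'.val ≤ κ * (m - κ) := by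
    have := ZMod.val_lt r'; omega
  obtain ⟨L, hL, hs⟩ := exists_sum m κ r'.val hκ h1
  refine ⟨L, hL, ?_⟩
  rw [hs, Nat.cast_add, ZMod.natCast_val, ZMod.cast_id', id_eq, hr']
  ring

end Pool.Agent.Helper51.SS
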