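import Mathlib

namespace Pool.Agent.Helper51.SS

/-- The family `𝓑_k^x` of all `k`-element subsets of `ℤ/n` with sum `x`. -/
def blocks (n : ℕ) [NeZero n] (k : ℕ) (x : ZMod n) : Finset (Finset (ZMod n)) :=
  (Finset.powersetCard k Finset.univ).filter (fun T => ∑ t ∈ T, t = x)

/-- `(P, B)` is a `1`-design: `B` is nonempty and all points lie in the same number of blocks. -/
def IsOneDesign {P : Type*} [DecidableEq P] (B : Finset (Finset P)) : Prop :=
  B.Nonempty ∧ ∃ r : ℕ, ∀ y : P, (B.filter (fun T => y ∈ T)).card = r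

/-- The arithmetic criterion.  Here `g = gcd(n,k)` and `v_p` is the `p`-adic valuation;
for `d ∣ n` the statement `(d : ZMod n) ∣ x` says that `x ∈ d ℤ/n`.
Either `x ∉ g ℤ/n` and `k < p^(v_p(k)+1)` for all primes `p` dividing `n / g` for which
`x ∈ p^(v_p(k)) ℤ/n`; or `n / g = q` is a prime, `x ∈ g ℤ/n` and
`q^(v_q(n)) < k < 2 q^(v_q(n))`. -/
def Crit (n k : ℕ) (x : ZMod n) : Prop :=
  (¬ ((n.gcd k : ℕ) : ZMod n) ∣ x ∧
    ∀ p : ℕ, p.Prime → p ∣ n / n.gcd k → ((p ^ k.factorization p : ℕ) : ZMod n) ∣ x →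
      k < p ^ (k.factorization p + 1)) ∨
  ∃ q : ℕ, q.Prime ∧ n / n.gcd k = q ∧ ((n.gcd k : ℕ) : ZMod n) ∣ x ∧
    q ^ n.factorization q < k ∧ k < 2 * q ^ n.factorization q

end Pool.Agent.Helper51.SS
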