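import Pool.Agent.Helper51.SS.Main

namespace Pool.Agent.Helper51.SS

open Finset

/-- arithmetic: two primes of different type cannot coexist -/
theorem no_mix (n k p q c d : ℕ) (hp : p.Prime) (hq : q.Prime) (hpq : p ≠ q) (hn : 0 < n) (hk : 1 ≤ k)
    (hkn : k < n) (h1 : p ^ (c + 1) ∣ n) (h2 : q ^ (d + 1) ∣ n) (h3 : k < p ^ (c + 1))
    (h4 : n - k < q ^ (d + 1)) : False := by
  have hcop : Nat.Coprime (p ^ (c + 1)) (q ^ (d + 1)) :=
    Nat.Coprime.pow _ _ ((Nat.coprime_primes hp hq).mpr hpq)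
  have h5 : p ^ (c + 1) * q ^ (d + 1) ∣ n := hcop.mul_dvd_of_dvd_of_dvd h1 h2
  have h6 := Nat.le_of_dvd hn h5
  have h7 : (k + 1) * (n - k + 1) ≤ p ^ (c + 1) * q ^ (d + 1) := Nat.mul_le_mul h3 h4
  obtain ⟨m, rfl⟩ : ∃ m, n = k + m := ⟨n - k, by omega⟩
  have h8 : k + m - k = m := by omega
  rw [h8] at h7
  nlinarith

theorem fac_compl (n k p : ℕ) (hk : 1 ≤ k) (hkn : k < n) (hp : p.Prime) (hpn : p ∣ n / n.gcd k) :
    (n - k).factorization p = k.factorization p := by
  obtain ⟨c, M, q, hc, hM0, hq0, hnn, hgg, hpM, hpk, hpk1⟩ :=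
    structure_at n k p (by omega) hk hp hpn
  rw [← hc]
  have h1 : p ^ (c + 1) ∣ n := ⟨M * q, by rw [hnn]; ring⟩
  have h2 : p ^ c ∣ n - k := Nat.dvd_sub (dvd_trans (pow_dvd_pow _ (by omega)) h1) hpk
  have h3 : ¬ p ^ (c + 1) ∣ n - k := by
    intro h
    apply hpk1
    have := Nat.dvd_sub h1 h
    rwa [Nat.sub_sub_self hkn.le] at this
  have h0 : n - k ≠ 0 := by omega
  apply le_antisymm
  · by_contra hcon
    apply h3
    rw [hp.pow_dvd_iff_le_factorization h0]
    omega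
  · exact (hp.pow_dvd_iff_le_factorization h0).mp h2

theorem necessity (n : ℕ) [NeZero n] (k : ℕ) (hk : 1 ≤ k) (hkn : k < n) (x : ZMod n)
    (hdes : IsOneDesign (blocks n k x)) :
    Crit n k x ∨ Crit n (n - k) ((∑ t : ZMod n, t) - x) := by
  have hn : 0 < n := by omega
  have hg0 : 0 < n.gcd k := Nat.gcd_pos_of_pos_left _ hn
  have hgn : n.gcd k ∣ n := Nat.gcd_dvd_left n k
  have hgk : n.gcd k ∣ k := Nat.gcd_dvd_right n k
  have hgc : n.gcd (n - k) = n.gcd k := Nat.gcd_self_sub_right hkn.le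
  have hpown : ∀ p, p.Prime → p ∣ n / n.gcd k → p ^ (k.factorization p + 1) ∣ n := by
    intro p hp hpn
    obtain ⟨c, M, q, hc, hM0, hq0, hnn, hgg, hpM, hpk, hpk1⟩ := structure_at n k p hn hk hp hpn
    rw [← hc]
    exact ⟨M * q, by rw [hnn]; ring⟩
  by_cases hP : ∃ p : ℕ, p.Prime ∧ p ∣ n / n.gcd k ∧ ((p ^ k.factorization p : ℕ) : ZMod n) ∣ x
  · obtain ⟨p, hp, hpn, hpx⟩ := hP
    rcases types n k p hk hkn x hdes hp hpn hpx with ⟨hlow, hgx⟩ | ⟨hhigh, hgx⟩ | hB | hB'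
    · -- everything is low
      left; left
      refine ⟨hgx, fun q hq hqn hqx => ?_⟩
      rcases types n k q hk hkn x hdes hq hqn hqx with ⟨hlow', _⟩ | ⟨hhigh', _⟩ | hB | hB'
      · exact hlow'
      · by_cases hpq : p = q
        · subst hpq; exact hlow
        · exact (no_mix n k p q _ _ hp hq hpq hn hk hkn (hpown p hp hpn) (hpown q hq hqn)
            hlow hhigh').elim
      · rw [hB.1] at hpn
        rw [(Nat.prime_dvd_prime_iff_eq hp hq).mp hpn] at hlow
        exact hlow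
      · rw [hB'.1] at hpn
        rw [(Nat.prime_dvd_prime_iff_eq hp hq).mp hpn] at hlow
        exact hlow
    · right; left
      rw [hgc]
      refine ⟨hgx, fun q hq hqn hqx => ?_⟩
      rw [fac_compl n k q hk hkn hq hqn] at hqx ⊢
      have hqx' : ((q ^ k.factorization q : ℕ) : ZMod n) ∣ x := by
        have h1 := pow_dvd_sigma n q (k.factorization q) hq (hpown q hq hqn)
        have h2 := dvd_sub h1 hqx
        rwa [sub_sub_cancel] at h2
      rcases types n k q hk hkn x hdes hq hqn hqx' with ⟨hlow', _⟩ | ⟨hhigh', _⟩ | hB | hB'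
      · by_cases hpq : p = q
        · subst hpq; exact hhigh
        · exact (no_mix n k q p _ _ hq hp (Ne.symm hpq) hn hk hkn (hpown q hq hqn)
            (hpown p hp hpn) hlow' hhigh).elim
      · exact hhigh'
      · rw [hB.1] at hpn
        rw [(Nat.prime_dvd_prime_iff_eq hp hq).mp hpn] at hhigh
        exact hhigh
      · rw [hB'.1] at hpn
        rw [(Nat.prime_dvd_prime_iff_eq hp hq).mp hpn] at hhigh
        exact hhigh
    · left; right
      exact ⟨p, hp, hB⟩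
    · right; right
      rw [hgc]
      exact ⟨p, hp, hB'⟩
  · left; left
    have hne : n / n.gcd k ≠ 1 := by
      intro h
      have h1 : n = n.gcd k * 1 := by rw [← h, Nat.mul_div_cancel' hgn]
      have h2 := Nat.le_of_dvd (by omega) hgk
      omega
    obtain ⟨p, hp, hpn⟩ := Nat.exists_prime_and_dvd hne
    refine ⟨?_, fun q hq hqn hqx => (hP ⟨q, hq, hqn, hqx⟩).elim⟩
    intro hgx
    apply hP
    refine ⟨p, hp, hpn, dvd_trans (Nat.cast_dvd_cast ?_) hgx⟩
    obtain ⟨c, M, q, hc, hM0, hq0, hnn, hgg, hpM, hpk, hpk1⟩ := structure_at n k p hn hk hp hpn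
    rw [hgg, ← hc]
    exact ⟨M, rfl⟩

theorem crit_suff (n : ℕ) [NeZero n] (k : ℕ) (hk : 1 ≤ k) (hkn : k < n) (x : ZMod n)
    (h : Crit n k x) : IsOneDesign (blocks n k x) := by
  rcases h with ⟨h1, h2⟩ | ⟨q, hq, hnq, hgx, h1, h2⟩
  · exact suff1 n k hk hkn x h1 h2
  · exact suff2 n k hk hkn x q hq hnq hgx h1 h2

theorem blocks_full (n : ℕ) [NeZero n] (x : ZMod n) :
    IsOneDesign (blocks n n x) ↔ x = ∑ t : ZMod n, t := by
  have hmem : ∀ T, T ∈ blocks n n x ↔ T = Finset.univ ∧ (∑ t : ZMod n, t) = x := by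
    intro T
    unfold blocks
    rw [Finset.mem_filter, Finset.mem_powersetCard]
    constructor
    · rintro ⟨⟨_, h1⟩, h2⟩
      have h3 : T = Finset.univ := by
        rw [← Finset.card_eq_iff_eq_univ, ZMod.card]; exact h1
      subst h3
      exact ⟨rfl, h2⟩
    · rintro ⟨rfl, h⟩
      exact ⟨⟨Finset.subset_univ _, by rw [Finset.card_univ, ZMod.card]⟩, h⟩
  constructor
  · rintro ⟨⟨T, hT⟩, _⟩
    exact ((hmem T).mp hT).2.symm
  · intro h
    refine ⟨⟨Finset.univ, (hmem _).mpr ⟨rfl, h.symm⟩⟩, 1, fun y => ?_⟩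
    rw [Finset.card_eq_one]
    refine ⟨Finset.univ, ?_⟩
    ext T
    rw [Finset.mem_filter, Finset.mem_singleton, hmem]
    constructor
    · rintro ⟨⟨h1, _⟩, _⟩; exact h1
    · rintro rfl; exact ⟨⟨rfl, h.symm⟩, Finset.mem_univ _⟩

theorem classification (n : ℕ) [NeZero n] (k : ℕ) (hk : 1 ≤ k) (hkn : k ≤ n) (x : ZMod n) :
    IsOneDesign (blocks n k x) ↔
      (k = n ∧ x = ∑ t : ZMod n, t) ∨
      (k < n ∧ (Crit n k x ∨ Crit n (n - k) ((∑ t : ZMod n, t) - x))) := by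
  rcases hkn.eq_or_lt with rfl | hlt
  · rw [blocks_full]
    constructor
    · intro h; exact Or.inl ⟨rfl, h⟩
    · rintro (⟨_, h⟩ | ⟨h, _⟩)
      · exact h
      · exact absurd h (lt_irrefl _)
  · constructor
    · intro h
      exact Or.inr ⟨hlt, necessity n k hk hlt x h⟩
    · rintro (⟨h, _⟩ | ⟨_, h | h⟩)
      · omega
      · exact crit_suff n k hk hlt x h
      · have h1 := crit_suff n (n - k) (by omega) (by omega) _ h
        have h2 := design_compl n (n - k) (Nat.sub_le _ _) _ h1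
        rwa [Nat.sub_sub_self hkn, sub_sub_cancel] at h2

end Pool.Agent.Helper51.SS
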