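import Pool.Agent.Helper51.SS.Nec

namespace Pool.Agent.Helper51.SS

open Finset

theorem sigma_add_self (n : ℕ) [NeZero n] : (∑ t : ZMod n, t) + (∑ t : ZMod n, t) = 0 := by
  have h : (∑ t : ZMod n, t) = ∑ t : ZMod n, (-t) :=
    (Equiv.sum_comp (Equiv.neg (ZMod n)) (fun t => t)).symm
  rw [Finset.sum_neg_distrib] at h
  rw [← eq_neg_iff_add_eq_zero]; exact h

theorem pow_dvd_sigma (n p c : ℕ) [NeZero n] (hp : p.Prime) (h : p ^ (c + 1) ∣ n) :
    ((p ^ c : ℕ) : ZMod n) ∣ ∑ t : ZMod n, t := by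
  set σ := ∑ t : ZMod n, t with hσ
  have h1 : ((2 * σ.val : ℕ) : ZMod n) = 0 := by
    push_cast
    rw [ZMod.natCast_val, ZMod.cast_id', id_eq, two_mul]
    exact sigma_add_self n
  have h2 : n ∣ 2 * σ.val := (ZMod.natCast_eq_zero_iff _ _).mp h1
  have h3 : p ^ (c + 1) ∣ 2 * σ.val := dvd_trans h h2
  have h4 : p ^ c ∣ σ.val := by
    by_cases hp2 : p = 2
    · subst hp2
      rw [pow_succ, mul_comm] at h3
      exact Nat.dvd_of_mul_dvd_mul_left (by norm_num) h3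
    · have : Nat.Coprime (p ^ (c + 1)) 2 :=
        Nat.Coprime.pow_left _ ((Nat.coprime_primes hp Nat.prime_two).mpr hp2)
      exact dvd_trans (pow_dvd_pow _ (by omega)) (this.dvd_of_dvd_mul_left h3)
  have h5 : σ = ((σ.val : ℕ) : ZMod n) := by simp
  rw [h5]
  exact Nat.cast_dvd_cast h4

theorem exists_u0 (p c M n : ℕ) [NeZero n] (x y : ZMod n)
    (hxy : x = ((p ^ c : ℕ) : ZMod n) * y) (S : ℕ) (h : ((p * S : ℕ) : ZMod M) = (y.val : ZMod M)) :
    ∃ u0 : ZMod n, ((p ^ (c + 1) * S : ℕ) : ZMod n) = x + ((p ^ c * M : ℕ) : ZMod n) * u0 := by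
  have h1 := (ZMod.natCast_eq_natCast_iff _ _ M).mp h
  obtain ⟨v, hv⟩ := Int.modEq_iff_dvd.mp (Int.natCast_modEq_iff.mpr h1.symm)
  have h2 : ((p * S : ℕ) : ℤ) = (y.val : ℤ) + M * v := by linarith
  have h3 : ((p * S : ℕ) : ZMod n) = y + M * v := by
    have h4 := congrArg (fun z : ℤ => (z : ZMod n)) h2
    simp only [Int.cast_natCast, Int.cast_add, Int.cast_mul] at h4
    rw [ZMod.natCast_val, ZMod.cast_id', id_eq] at h4
    exact h4
  refine ⟨v, ?_⟩
  rw [hxy]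
  have h5 : ((p ^ (c + 1) * S : ℕ) : ZMod n) = ((p ^ c : ℕ) : ZMod n) * ((p * S : ℕ) : ZMod n) := by
    push_cast; ring
  rw [h5, h3]
  push_cast
  ring

/-- target residue -/
theorem exists_target (p M n : ℕ) [NeZero n] (hp : p.Prime) (hM : 0 < M) (hpM : ¬ p ∣ M) (y : ZMod n) :
    ∃ r : ℕ, p * r ≡ y.val [MOD M] := by
  apply exists_mul_modEq hM
  have : Nat.Coprime p M := (Nat.Prime.coprime_iff_not_dvd hp).mpr hpM
  rw [Nat.Coprime.gcd_eq_one this]
  exact one_dvd _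

/-- If every residue mod `M` is a sum of `κ`-subsets, there is no design. -/
theorem no_design_of_cover (n k p c M q : ℕ) [NeZero n] (hk : 1 ≤ k) (hkn : k < n) (x : ZMod n)
    (hdes : IsOneDesign (blocks n k x)) (hp : p.Prime) (hM : 0 < M) (hq : 0 < q)
    (hn : n = p ^ (c + 1) * M * q) (hg : n.gcd k = p ^ c * M) (hpM : ¬ p ∣ M)
    (hx : ((p ^ c : ℕ) : ZMod n) ∣ x)
    (hcov : ∀ r : ZMod M, ∃ L ∈ (Ico 1 (M * q)).powersetCard ((k - 1) / p ^ (c + 1)),
      ((∑ i ∈ L, i : ℕ) : ZMod M) = r) : False := by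
  rw [design_iff n k hk hkn x, hg] at hdes
  obtain ⟨y, hy⟩ := hx
  obtain ⟨r, hr⟩ := exists_target p M n hp hM hpM y
  obtain ⟨L, hL, hLr⟩ := hcov r
  have h1 : ((p * ssum L : ℕ) : ZMod M) = (y.val : ZMod M) := by
    have h2 := (ZMod.natCast_eq_natCast_iff _ _ M).mpr hr
    rw [← h2]
    push_cast
    unfold ssum
    rw [← hLr]
  obtain ⟨u0, hu0⟩ := exists_u0 p c M n x y hy (ssum L) h1
  exact nec p c M q (k - 1) hp hM hq hpM n hn x hdes L hL u0 hu0

/-- the case `κ = 0` -/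
theorem type_zero (n k p c M q : ℕ) [NeZero n] (hk : 1 ≤ k) (hkn : k < n) (x : ZMod n)
    (hdes : IsOneDesign (blocks n k x)) (hp : p.Prime) (hM : 0 < M) (hq : 0 < q)
    (hn : n = p ^ (c + 1) * M * q) (hg : n.gcd k = p ^ c * M) (hpM : ¬ p ∣ M)
    (hκ : (k - 1) / p ^ (c + 1) = 0) : ¬ ((n.gcd k : ℕ) : ZMod n) ∣ x := by
  rintro ⟨y, hy⟩
  rw [design_iff n k hk hkn x, hg] at hdes
  refine nec p c M q (k - 1) hp hM hq hpM n hn x hdes ∅ ?_ (-y) ?_
  · rw [hκ]; simp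
  · rw [hy, hg]; simp [ssum]

/-- the case `κ = 1`, `q = 1` -/
theorem type_one (n k p c M : ℕ) [NeZero n] (hk : 1 ≤ k) (hkn : k < n) (x : ZMod n)
    (hdes : IsOneDesign (blocks n k x)) (hp : p.Prime) (hM : 0 < M)
    (hn : n = p ^ (c + 1) * M * 1) (hg : n.gcd k = p ^ c * M) (hpM : ¬ p ∣ M)
    (hx : ((p ^ c : ℕ) : ZMod n) ∣ x)
    (hκ : (k - 1) / p ^ (c + 1) = 1) : ((n.gcd k : ℕ) : ZMod n) ∣ x := by
  by_contra hcon
  obtain ⟨y, hy⟩ := hx
  obtain ⟨r, hr⟩ := exists_target p M n hp hM hpM y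
  rw [design_iff n k hk hkn x, hg] at hdes
  have hr0 : r % M ≠ 0 := by
    intro h0
    apply hcon
    have h1 : y.val ≡ 0 [MOD M] := by
      have h2 : p * r ≡ 0 [MOD M] := by
        have : r ≡ 0 [MOD M] := h0
        calc p * r ≡ p * 0 [MOD M] := Nat.ModEq.mul_left _ this
          _ = 0 := by ring
      exact hr.symm.trans h2
    obtain ⟨v, hv⟩ := Nat.modEq_zero_iff_dvd.mp h1
    refine ⟨v, ?_⟩
    rw [hy, hg]
    have h3 : y = ((M * v : ℕ) : ZMod n) := by rw [← hv]; simp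
    rw [h3]; push_cast; ring
  have hlt : r % M < M := Nat.mod_lt _ hM
  have h1 : ((p * ssum {r % M} : ℕ) : ZMod M) = (y.val : ZMod M) := by
    rw [ZMod.natCast_eq_natCast_iff]
    have : ssum {r % M} = r % M := by simp [ssum]
    rw [this]
    exact (Nat.ModEq.mul_left p (Nat.mod_modEq r M)).trans hr
  obtain ⟨u0, hu0⟩ := exists_u0 p c M n x y hy (ssum {r % M}) h1
  refine nec p c M 1 (k - 1) hp hM one_pos hpM n hn x hdes {r % M} ?_ u0 hu0
  rw [hκ, Finset.mem_powersetCard]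
  refine ⟨?_, by simp⟩
  rw [Finset.singleton_subset_iff, Finset.mem_Ico]
  omega

/-- the general step at one prime -/
theorem types (n k p : ℕ) [NeZero n] (hk : 1 ≤ k) (hkn : k < n) (x : ZMod n)
    (hdes : IsOneDesign (blocks n k x)) (hp : p.Prime) (hpn : p ∣ n / n.gcd k)
    (hx : ((p ^ k.factorization p : ℕ) : ZMod n) ∣ x) :
    (k < p ^ (k.factorization p + 1) ∧ ¬ ((n.gcd k : ℕ) : ZMod n) ∣ x) ∨
    (n - k < p ^ (k.factorization p + 1) ∧ ¬ ((n.gcd k : ℕ) : ZMod n) ∣ (∑ t : ZMod n, t) - x) ∨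
    (n / n.gcd k = p ∧ ((n.gcd k : ℕ) : ZMod n) ∣ x ∧ p ^ n.factorization p < k ∧
      k < 2 * p ^ n.factorization p) ∨
    (n / n.gcd k = p ∧ ((n.gcd k : ℕ) : ZMod n) ∣ (∑ t : ZMod n, t) - x ∧
      p ^ n.factorization p < n - k ∧ n - k < 2 * p ^ n.factorization p) := by
  have hn0 : 0 < n := Nat.pos_of_ne_zero (NeZero.ne n)
  obtain ⟨c, M, q, hc, hM0, hq0, hnn, hgg, hpM, hpk, hpk1⟩ := structure_at n k p hn0 hk hp hpn
  rw [← hc] at hx ⊢
  have hgc : n.gcd (n - k) = n.gcd k := Nat.gcd_self_sub_right hkn.le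
  have hdes' := design_compl n k hkn.le x hdes
  set σ := ∑ t : ZMod n, t with hσ
  have hx' : ((p ^ c : ℕ) : ZMod n) ∣ σ - x :=
    dvd_sub (pow_dvd_sigma n p c hp ⟨M * q, by rw [hnn]; ring⟩) hx
  have hs0 : 0 < p ^ (c + 1) := pow_pos hp.pos _
  set s := p ^ (c + 1) with hs
  have hsk : ∀ e, k ≠ s * e := by
    intro e he; exact hpk1 ⟨e, he⟩
  have hsnk : ∀ e, n - k ≠ s * e := by
    intro e he
    apply hpk1
    have h1 : s ∣ n := ⟨M * q, by rw [hnn]; ring⟩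
    have h2 : s ∣ n - (n - k) := Nat.dvd_sub h1 ⟨e, he⟩
    rwa [Nat.sub_sub_self hkn.le] at h2
  have hN : n = s * (M * q) := by rw [hnn]; ring
  have hgnk : n.gcd (n - k) = p ^ c * M := by rw [hgc, hgg]
  obtain ⟨κ, hκ⟩ : ∃ κ, κ = (k - 1) / s := ⟨_, rfl⟩
  have hκ1 : s * κ ≤ k - 1 := by rw [hκ]; exact Nat.mul_div_le _ _
  have hκ2 : k - 1 < s * κ + s := by
    have := Nat.lt_mul_div_succ (k - 1) hs0
    rw [Nat.mul_add, mul_one, ← hκ] at this
    exact this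
  have hκN : κ < M * q := by
    by_contra hcon
    have : s * (M * q) ≤ s * κ := Nat.mul_le_mul_left _ (by omega)
    omega
  by_cases hκ0 : κ = 0
  · left
    refine ⟨?_, type_zero n k p c M q hk hkn x hdes hp hM0 hq0 hnn hgg hpM
      (by rw [← hs, ← hκ]; exact hκ0)⟩
    rw [hκ0] at hκ2
    have := hsk 1
    omega
  by_cases hκN1 : κ = M * q - 1
  · right; left
    have h1 : s * κ = n - s := by rw [hκN1, Nat.mul_sub, mul_one, ← hN]
    have hsn : s ≤ n := Nat.le_of_dvd hn0 ⟨M * q, hN⟩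
    have h2 : n - k < s := by omega
    refine ⟨h2, ?_⟩
    rw [← hgc]
    exact type_zero n (n - k) p c M q (by omega) (by omega) (σ - x) hdes' hp hM0 hq0 hnn hgnk hpM
      (Nat.div_eq_of_lt (by omega))
  -- now 1 ≤ κ ≤ N - 2
  obtain ⟨m, hm⟩ : ∃ m, M * q = m + 1 := ⟨M * q - 1, by omega⟩
  rw [hm] at hκN hκN1
  obtain ⟨e, he⟩ : ∃ e, m = κ + e + 1 := ⟨m - κ - 1, by omega⟩
  obtain ⟨κ', hκ'⟩ : ∃ κ', κ = κ' + 1 := ⟨κ - 1, by omega⟩
  have hprod : κ * (m - κ) = κ' * e + κ' + e + 1 := by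
    have : m - κ = e + 1 := by omega
    rw [this, hκ']; ring
  by_cases hq1 : q = 1
  · subst hq1
    rw [mul_one] at hm
    have hfac : n.factorization p = c + 1 := by
      rw [hnn, mul_one, Nat.factorization_mul hs0.ne' hM0.ne', hp.factorization_pow]
      simp [Nat.factorization_eq_zero_of_not_dvd hpM]
    have hngp : n / n.gcd k = p := by
      rw [hgg, hnn]
      have : s * M * 1 = (p ^ c * M) * p := by rw [hs]; ring
      rw [this, Nat.mul_div_cancel_left _ (Nat.mul_pos (pow_pos hp.pos _) hM0)]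
    rw [hfac, ← hs]
    by_cases h1 : κ' = 0
    · right; right; left
      have hκe : κ = 1 := by omega
      refine ⟨hngp, type_one n k p c M hk hkn x hdes hp hM0 hnn hgg hpM hx
        (by rw [← hs, ← hκ]; exact hκe), ?_, ?_⟩
      · rw [hκe] at hκ1; omega
      · rw [hκe] at hκ2
        have := hsk 2
        omega
    by_cases h2 : e = 0
    · right; right; right
      have h3 : s * κ = n - 2 * s := by
        have : κ = M * 1 - 2 := by omega
        rw [this, Nat.mul_sub, ← hN]; ring_nf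
      have h3' : 2 * s ≤ n := by
        rw [hN, hm, he]; nlinarith
      have h4 : s < n - k := by
        have h5 := hsnk 1
        omega
      have h6 : n - k < 2 * s := by omega
      have hκe : (n - k - 1) / p ^ (c + 1) = 1 := by
        rw [Nat.div_eq_iff hs0]; omega
      refine ⟨hngp, ?_, h4, h6⟩
      rw [← hgc]
      exact type_one n (n - k) p c M (by omega) (by omega) (σ - x) hdes' hp hM0 hnn hgnk hpM hx' hκe
    exfalso
    refine no_design_of_cover n k p c M 1 hk hkn x hdes hp hM0 hq0 hnn hgg hpM hx ?_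
    rw [← hs, ← hκ]
    intro r
    have h3 : M ≤ κ * (m - κ) + 1 := by
      rw [hprod]
      have : 1 ≤ κ' * e := Nat.mul_pos (by omega) (by omega)
      omega
    obtain ⟨L, hL, hr⟩ := exists_sum_mod m κ M hM0 (by omega) h3 r
    rw [← hm] at hL
    exact ⟨L, by rw [mul_one]; exact hL, hr⟩
  · exfalso
    refine no_design_of_cover n k p c M q hk hkn x hdes hp hM0 hq0 hnn hgg hpM hx ?_
    rw [← hs, ← hκ]
    intro r
    have h3 : M ≤ κ * (m - κ) + 1 := by
      rw [hprod]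
      have : M * 2 ≤ M * q := Nat.mul_le_mul_left _ (by omega)
      have : 0 ≤ κ' * e := Nat.zero_le _
      omega
    obtain ⟨L, hL, hr⟩ := exists_sum_mod m κ M hM0 (by omega) h3 r
    rw [← hm] at hL
    exact ⟨L, hL, hr⟩

end Pool.Agent.Helper51.SS
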