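import Pool.Agent.Helper51.SS.Defs
import Pool.Agent.Helper51.SS.Count
import Pool.Agent.Helper51.SS.Cover

namespace Pool.Agent.Helper51.SS

open Finset

/-- number of `t`-subsets of `{1,…,n-1}` with sum `z` mod `n` -/
def b (n t : ℕ) (z : ZMod n) : ℕ := cnt ((Ico 1 n).powersetCard t) ssum n z

theorem card_blocks (n : ℕ) [NeZero n] (k : ℕ) (hk : 1 ≤ k) (x y : ZMod n) :
    ((blocks n k x).filter (fun T => y ∈ T)).card = b n (k - 1) (x - k * y) :=
  bridge n k hk x y

theorem blocks_nonempty (n : ℕ) [NeZero n] (k : ℕ) (hk : 1 ≤ k) (hkn : k < n) (x : ZMod n) :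
    (blocks n k x).Nonempty := by
  have hn : 0 < n := Nat.pos_of_ne_zero (NeZero.ne n)
  obtain ⟨L, hL, hs⟩ := exists_sum_mod n k n hn hkn.le (by
    obtain ⟨d, rfl⟩ : ∃ d, n = k + d + 1 := ⟨n - k - 1, by omega⟩
    have : k + d + 1 - k = d + 1 := by omega
    rw [this]; nlinarith) x
  rw [Finset.mem_powersetCard] at hL
  have hinj : Set.InjOn (fun i : ℕ => (i : ZMod n)) (L : Set ℕ) := by
    intro a ha c hc hac
    have h1 := Finset.mem_Ico.mp (hL.1 (Finset.mem_coe.mp ha))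
    have h2 := Finset.mem_Ico.mp (hL.1 (Finset.mem_coe.mp hc))
    have h3 := (ZMod.natCast_eq_natCast_iff a c n).mp hac
    obtain ⟨a', rfl⟩ : ∃ a', a = a' + 1 := ⟨a - 1, by omega⟩
    obtain ⟨c', rfl⟩ : ∃ c', c = c' + 1 := ⟨c - 1, by omega⟩
    have h4 := Nat.ModEq.add_right_cancel' 1 h3
    have := Nat.ModEq.eq_of_lt_of_lt h4 (by omega) (by omega)
    omega
  refine ⟨L.image (fun i : ℕ => (i : ZMod n)), ?_⟩
  unfold blocks
  rw [Finset.mem_filter, Finset.mem_powersetCard]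
  refine ⟨⟨Finset.subset_univ _, ?_⟩, ?_⟩
  · rw [Finset.card_image_of_injOn hinj, hL.2]
  · rw [Finset.sum_image hinj, ← hs]
    push_cast
    rfl

theorem gcd_eq_mul (n k : ℕ) : ∃ A : ZMod n, ((n.gcd k : ℕ) : ZMod n) = k * A := by
  refine ⟨(Nat.gcdB n k : ZMod n), ?_⟩
  have := congrArg (fun z : ℤ => (z : ZMod n)) (Nat.gcd_eq_gcd_ab n k)
  simpa using this

theorem eq_gcd_mul (n k : ℕ) : ∃ A : ZMod n, (k : ZMod n) = ((n.gcd k : ℕ) : ZMod n) * A := by
  obtain ⟨A, hA⟩ := Nat.gcd_dvd_right n k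
  refine ⟨A, ?_⟩
  conv_lhs => rw [hA]
  push_cast
  rfl

theorem design_iff (n : ℕ) [NeZero n] (k : ℕ) (hk : 1 ≤ k) (hkn : k < n) (x : ZMod n) :
    IsOneDesign (blocks n k x) ↔
      ∀ u : ZMod n, b n (k - 1) (x + ((n.gcd k : ℕ) : ZMod n) * u) = b n (k - 1) x := by
  constructor
  · rintro ⟨_, r, hr⟩ u
    obtain ⟨A, hA⟩ := gcd_eq_mul n k
    have h1 := hr (- (A * u))
    have h2 := hr 0
    rw [card_blocks n k hk] at h1 h2
    rw [mul_zero, sub_zero] at h2
    rw [h2, ← h1, hA]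
    congr 1
    ring
  · intro h
    refine ⟨blocks_nonempty n k hk hkn x, b n (k - 1) x, fun y => ?_⟩
    rw [card_blocks n k hk]
    obtain ⟨A, hA⟩ := eq_gcd_mul n k
    rw [← h (-(A * y)), hA]
    congr 1
    ring

/-- invariance under units -/
theorem b_unit (n : ℕ) [NeZero n] (t : ℕ) (z : ZMod n) (u : (ZMod n)ˣ) :
    b n t (u * z) = b n t z := by
  have h1 := bridge n (t + 1) (by omega) (u * z) 0
  have h2 := bridge n (t + 1) (by omega) z 0
  rw [mul_zero, sub_zero, Nat.add_sub_cancel] at h1 h2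
  unfold b
  rw [← h1, ← h2]
  symm
  refine Finset.card_nbij' (fun T => T.image (fun s => (u : ZMod n) * s))
    (fun T => T.image (fun s => ((u⁻¹ : (ZMod n)ˣ) : ZMod n) * s)) ?_ ?_ ?_ ?_
  · intro T hT
    simp only [Finset.coe_filter, Finset.mem_filter, Finset.mem_powersetCard, Set.mem_ofPred_eq] at hT ⊢
    obtain ⟨⟨⟨_, hc⟩, hs⟩, hy⟩ := hT
    have hinj : Function.Injective (fun s => (u : ZMod n) * s) := fun a b h => by
      simpa using h
    refine ⟨⟨⟨Finset.subset_univ _, ?_⟩, ?_⟩, ?_⟩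
    · rw [Finset.card_image_of_injective _ hinj, hc]
    · rw [Finset.sum_image (fun a _ b _ h => hinj h), ← Finset.mul_sum, hs]
    · exact Finset.mem_image.mpr ⟨0, hy, by simp⟩
  · intro T hT
    simp only [Finset.coe_filter, Finset.mem_filter, Finset.mem_powersetCard, Set.mem_ofPred_eq] at hT ⊢
    obtain ⟨⟨⟨_, hc⟩, hs⟩, hy⟩ := hT
    have hinj : Function.Injective (fun s => ((u⁻¹ : (ZMod n)ˣ) : ZMod n) * s) := fun a b h => by
      simpa using h
    refine ⟨⟨⟨Finset.subset_univ _, ?_⟩, ?_⟩, ?_⟩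
    · rw [Finset.card_image_of_injective _ hinj, hc]
    · rw [Finset.sum_image (fun a _ b _ h => hinj h), ← Finset.mul_sum, hs]
      simp
    · exact Finset.mem_image.mpr ⟨0, hy, by simp⟩
  · intro T _
    simp only [Finset.image_image]
    conv_rhs => rw [← Finset.image_id (s := T)]
    refine Finset.image_congr fun t _ => ?_
    simp
  · intro T _
    simp only [Finset.image_image]
    conv_rhs => rw [← Finset.image_id (s := T)]
    refine Finset.image_congr fun t _ => ?_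
    simp

/-- complement symmetry -/
theorem design_compl (n : ℕ) [NeZero n] (k : ℕ) (hkn : k ≤ n) (x : ZMod n)
    (h : IsOneDesign (blocks n k x)) :
    IsOneDesign (blocks n (n - k) (∑ t : ZMod n, t - x)) := by
  obtain ⟨⟨T0, hT0⟩, r, hr⟩ := h
  have hmem : ∀ T : Finset (ZMod n), ∀ k ≤ n, ∀ x, T ∈ blocks n k x →
      Tᶜ ∈ blocks n (n - k) (∑ t : ZMod n, t - x) := by
    intro T k hk x hT
    unfold blocks at hT ⊢
    rw [Finset.mem_filter, Finset.mem_powersetCard] at hT ⊢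
    refine ⟨⟨Finset.subset_univ _, ?_⟩, ?_⟩
    · rw [Finset.card_compl, ZMod.card, hT.1.2]
    · rw [← hT.2, eq_sub_iff_add_eq, Finset.sum_compl_add_sum]
  refine ⟨⟨T0ᶜ, hmem T0 k hkn x hT0⟩, (blocks n k x).card - r, fun y => ?_⟩
  have h1 : ((blocks n (n - k) (∑ t : ZMod n, t - x)).filter (fun T => y ∈ T)).card =
      ((blocks n k x).filter (fun T => y ∉ T)).card := by
    refine Finset.card_nbij' (fun T => Tᶜ) (fun T => Tᶜ) ?_ ?_ ?_ ?_
    · intro T hT
      simp only [Finset.coe_filter, Set.mem_ofPred_eq] at hT ⊢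
      refine ⟨?_, by simpa using hT.2⟩
      have := hmem T _ (Nat.sub_le _ _) _ hT.1
      rwa [Nat.sub_sub_self hkn, sub_sub_cancel] at this
    · intro T hT
      simp only [Finset.coe_filter, Set.mem_ofPred_eq] at hT ⊢
      exact ⟨hmem T _ hkn _ hT.1, by simpa using hT.2⟩
    · intro T _; simp
    · intro T _; simp
  rw [h1]
  have h2 := Finset.card_filter_add_card_filter_not (s := blocks n k x) (fun T => y ∈ T)
  rw [hr y] at h2
  omega

end Pool.Agent.Helper51.SS
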