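import Pool.Agent.Helper51.SS.Shift

namespace Pool.Agent.Helper51.SS

open Finset

/-- at a prime `p` with `z ∉ p^c`, a unit moves `z` to `z + w`. -/
theorem exists_unit (n p c a m : ℕ) [NeZero n] (hp : p.Prime) (hn : n = p ^ a * m) (z : ZMod n) (hz : ¬ ((p ^ c : ℕ) : ZMod n) ∣ z) :
    ∃ u : (ZMod n)ˣ, (u : ZMod n) * z = z + ((p ^ c * m : ℕ) : ZMod n) := by
  have hz0 : z.val ≠ 0 := by
    intro h
    apply hz
    rw [ZMod.val_eq_zero] at h
    rw [h]; exact dvd_zero _
  obtain ⟨d, z1, hz1, hzd⟩ := Nat.exists_eq_pow_mul_and_not_dvd hz0 p hp.ne_one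
  have hdc : d < c := by
    by_contra hcon
    apply hz
    have h1 : z = ((z.val : ℕ) : ZMod n) := by simp
    rw [h1, hzd]
    apply Nat.cast_dvd_cast
    exact Dvd.dvd.mul_right (pow_dvd_pow _ (by omega)) _
  have hcop : Nat.gcd z1 (p ^ a) ∣ 1 := by
    have : Nat.Coprime z1 (p ^ a) :=
      Nat.Coprime.pow_right _ ((Nat.Prime.coprime_iff_not_dvd hp).mpr hz1).symm
    rw [this]
  obtain ⟨v, hv⟩ := exists_mul_modEq (pow_pos hp.pos a) hcop
  have hu : Nat.Coprime (1 + m * v * p ^ (c - d)) n := by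
    rw [hn]
    apply Nat.Coprime.mul_right
    · apply Nat.Coprime.pow_right
      obtain ⟨e, he⟩ : ∃ e, c - d = e + 1 := ⟨c - d - 1, by omega⟩
      rw [he, pow_succ, ← mul_assoc]
      rw [Nat.coprime_add_mul_right_left]
      exact Nat.coprime_one_left _
    · rw [mul_assoc, Nat.coprime_add_mul_left_left]
      exact Nat.coprime_one_left _
  refine ⟨ZMod.unitOfCoprime _ hu, ?_⟩
  rw [ZMod.coe_unitOfCoprime]
  have h1 : z = ((z.val : ℕ) : ZMod n) := by simp
  have h2 : ((1 + m * v * p ^ (c - d)) * z.val) ≡ z.val + p ^ c * m [MOD n] := by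
    have h3 : (1 + m * v * p ^ (c - d)) * z.val = z.val + p ^ c * m * (z1 * v) := by
      rw [hzd]
      have : p ^ c = p ^ (c - d) * p ^ d := by rw [← pow_add]; congr 1; omega
      rw [this]; ring
    rw [h3]
    apply Nat.ModEq.add_left
    have h4 : (p ^ c * m) * (z1 * v) ≡ (p ^ c * m) * 1 [MOD (p ^ c * m) * (p ^ a)] :=
      Nat.ModEq.mul_left' _ hv
    rw [mul_one] at h4
    apply h4.of_dvd
    rw [hn]
    exact ⟨p ^ c, by ring⟩
  have h5 := (ZMod.natCast_eq_natCast_iff _ _ n).mpr h2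
  push_cast at h5 ⊢
  rw [ZMod.natCast_val, ZMod.cast_id', id_eq] at h5
  exact h5

theorem gcd_dvd_low (n p c a m j : ℕ) (hp : p.Prime) (hn : n = p ^ a * m)
    (hj0 : 0 < j) (hj : j < p ^ (c + 1)) : Nat.gcd j n ∣ p ^ c * m := by
  have h0 : Nat.gcd j n ≠ 0 := by
    have := Nat.gcd_pos_of_pos_left n hj0; omega
  obtain ⟨i, d', hd', hd⟩ := Nat.exists_eq_pow_mul_and_not_dvd h0 p hp.ne_one
  have h1 : i ≤ c := by
    by_contra hcon
    have h2 : p ^ (c + 1) ∣ j := by
      refine dvd_trans ?_ (Nat.gcd_dvd_left j n)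
      rw [hd]
      exact Dvd.dvd.mul_right (pow_dvd_pow _ (by omega)) _
    exact absurd (Nat.le_of_dvd hj0 h2) (by omega)
  have h3 : d' ∣ p ^ a * m := by
    rw [← hn]
    exact dvd_trans ⟨p ^ i, by rw [hd]; ring⟩ (Nat.gcd_dvd_right j n)
  have h4 : d' ∣ m := by
    have : Nat.Coprime d' (p ^ a) :=
      Nat.Coprime.pow_right _ ((Nat.Prime.coprime_iff_not_dvd hp).mpr hd').symm
    exact this.dvd_of_dvd_mul_left h3
  rw [hd]
  exact Nat.mul_dvd_mul (pow_dvd_pow _ h1) h4

/-- A subgroup of `ℤ` containing `ν ≠ 0` and all its prime-to-`p` parts contains `1`. -/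
theorem one_mem_of_parts (S : AddSubgroup ℤ) (ν : ℕ) (hν : ν ≠ 0) (h1 : (ν : ℤ) ∈ S)
    (h2 : ∀ p : ℕ, p.Prime → p ∣ ν → ((ordCompl[p] ν : ℕ) : ℤ) ∈ S) : (1 : ℤ) ∈ S := by
  obtain ⟨a, ha⟩ := Int.subgroup_cyclic S
  have hmem : ∀ z : ℤ, z ∈ S ↔ a ∣ z := by
    intro z
    rw [ha, ← AddSubgroup.zmultiples_eq_closure, Int.mem_zmultiples_iff]
  rw [hmem]
  by_contra hcon
  have h3 : a.natAbs ≠ 1 := by
    intro h; apply hcon
    rw [← Int.natAbs_dvd, h]
    simp
  obtain ⟨p, hp, hpa⟩ := Nat.exists_prime_and_dvd h3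
  have h4 : (p : ℤ) ∣ a := Int.natCast_dvd.mpr hpa
  have h5 : p ∣ ν := by
    have := dvd_trans h4 ((hmem _).mp h1)
    exact_mod_cast this
  have h6 : p ∣ ordCompl[p] ν := by
    have := dvd_trans h4 ((hmem _).mp (h2 p hp h5))
    exact_mod_cast this
  exact Nat.not_dvd_ordCompl hp hν h6

/-- the structure of `n`, `k`, `g` at a prime dividing `n / g`. -/
theorem structure_at (n k p : ℕ) (hn : 0 < n) (hk : 0 < k) (hp : p.Prime)
    (hpn : p ∣ n / n.gcd k) :
    ∃ c M q : ℕ, c = k.factorization p ∧ 0 < M ∧ 0 < q ∧ n = p ^ (c + 1) * M * q ∧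
      n.gcd k = p ^ c * M ∧ ¬ p ∣ M ∧ p ^ c ∣ k ∧ ¬ p ^ (c + 1) ∣ k := by
  set g := n.gcd k with hg
  have hg0 : 0 < g := Nat.gcd_pos_of_pos_left _ hn
  have hgn : g ∣ n := Nat.gcd_dvd_left n k
  have hgk : g ∣ k := Nat.gcd_dvd_right n k
  obtain ⟨q, hq⟩ := hpn
  have hq0 : 0 < q := by
    rcases Nat.eq_zero_or_pos q with h | h
    · subst h
      have : 0 < n / g := Nat.div_pos (Nat.le_of_dvd hn hgn) hg0
      omega
    · exact h
  have hn1 : n = g * (p * q) := by rw [← hq, Nat.mul_div_cancel' hgn]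
  have h1 : ¬ p ^ (k.factorization p + 1) ∣ k := Nat.pow_succ_factorization_not_dvd hk.ne' hp
  have h2 : p ^ (k.factorization p) ∣ k := Nat.ordProj_dvd k p
  obtain ⟨c, M, hM, hcM⟩ := Nat.exists_eq_pow_mul_and_not_dvd hg0.ne' p hp.ne_one
  have hM0 : 0 < M := by
    rcases Nat.eq_zero_or_pos M with h | h
    · subst h; simp at hM
    · exact h
  have hc : c = k.factorization p := by
    apply le_antisymm
    · by_contra hcon
      apply h1
      refine dvd_trans (pow_dvd_pow _ (by omega : k.factorization p + 1 ≤ c)) ?_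
      refine dvd_trans ?_ hgk
      rw [hcM]; exact dvd_mul_right _ _
    · by_contra hcon
      have h3 : p ^ (c + 1) ∣ k := dvd_trans (pow_dvd_pow _ (by omega)) h2
      have h4 : p ^ (c + 1) ∣ n := by
        rw [hn1, hcM]
        exact ⟨M * q, by ring⟩
      have h5 : p ^ (c + 1) ∣ g := Nat.dvd_gcd h4 h3
      rw [hcM, pow_succ] at h5
      exact hM (Nat.dvd_of_mul_dvd_mul_left (pow_pos hp.pos c) h5)
  refine ⟨c, M, q, hc, hM0, hq0, ?_, hcM, hM, ?_, ?_⟩
  · rw [hn1, hcM]; ring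
  · rw [hc]; exact h2
  · rw [hc]; exact h1

theorem dvd_add_gcd (n g d : ℕ) (hdg : d ∣ g) (x u : ZMod n) :
    (d : ZMod n) ∣ x + (g : ZMod n) * u ↔ (d : ZMod n) ∣ x := by
  have h : (d : ZMod n) ∣ (g : ZMod n) * u := Dvd.dvd.mul_right (Nat.cast_dvd_cast hdg) _
  exact dvd_add_left h

/-- sufficiency of the first criterion -/
theorem suff1 (n : ℕ) [NeZero n] (k : ℕ) (hk : 1 ≤ k) (hkn : k < n) (x : ZMod n)
    (hgx : ¬ ((n.gcd k : ℕ) : ZMod n) ∣ x)
    (hp : ∀ p : ℕ, p.Prime → p ∣ n / n.gcd k → ((p ^ k.factorization p : ℕ) : ZMod n) ∣ x →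
      k < p ^ (k.factorization p + 1)) :
    IsOneDesign (blocks n k x) := by
  rw [design_iff n k hk hkn x]
  have hn : 0 < n := Nat.pos_of_ne_zero (NeZero.ne n)
  set g := n.gcd k with hg
  have hg0 : 0 < g := Nat.gcd_pos_of_pos_left _ hn
  have hgn : g ∣ n := Nat.gcd_dvd_left n k
  -- the subgroup of good shifts
  let S : AddSubgroup ℤ :=
    { carrier := {d : ℤ | ∀ e : ℤ, b n (k - 1) (x + (g : ZMod n) * ((e + d : ℤ) : ZMod n)) =
        b n (k - 1) (x + (g : ZMod n) * (e : ZMod n))}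
      add_mem' := by
        intro d1 d2 h1 h2 e
        rw [← h1 e, ← h2 (e + d1), add_assoc]
      zero_mem' := by
        intro e; rw [add_zero]
      neg_mem' := by
        intro d h e
        have := h (e + -d)
        rw [neg_add_cancel_right] at this
        exact this.symm }
  have hSmem : ∀ d : ℤ, d ∈ S ↔ ∀ e : ℤ, b n (k - 1) (x + (g : ZMod n) * ((e + d : ℤ) : ZMod n)) =
        b n (k - 1) (x + (g : ZMod n) * (e : ZMod n)) := fun d => Iff.rfl
  have h1 : (1 : ℤ) ∈ S := by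
    apply one_mem_of_parts S (n / g) (Nat.div_pos (Nat.le_of_dvd hn hgn) hg0).ne'
    · rw [hSmem]
      intro e
      have h00 : (g : ZMod n) * ((n / g : ℕ) : ZMod n) = 0 := by
        rw [← Nat.cast_mul, Nat.mul_div_cancel' hgn]; simp
      rw [Int.cast_add, mul_add, Int.cast_natCast, h00, add_zero]
    · intro p hpp hpn
      obtain ⟨c, M, q, hc, hM0, hq0, hnn, hgg, hpM, hpk, hpk1⟩ := structure_at n k p hn hk hpp hpn
      rw [← hg] at hgg
      rw [hSmem]
      intro e
      -- the natural number w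
      set a' := (n / g).factorization p with ha'
      have hng0 : n / g ≠ 0 := (Nat.div_pos (Nat.le_of_dvd hn hgn) hg0).ne'
      have hsplit : p ^ a' * (ordCompl[p] (n / g)) = n / g := Nat.ordProj_mul_ordCompl_eq_self _ _
      set ν' := ordCompl[p] (n / g) with hν'
      have hn2 : n = p ^ (c + a') * (M * ν') := by
        conv_lhs => rw [← Nat.mul_div_cancel' hgn, ← hsplit, hgg]
        rw [pow_add]; ring
      have hw : g * ν' = p ^ c * (M * ν') := by rw [hgg]; ring
      set z : ZMod n := x + (g : ZMod n) * (e : ZMod n) with hz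
      have hz2 : x + (g : ZMod n) * ((e + (ν' : ℤ) : ℤ) : ZMod n) = z + ((p ^ c * (M * ν') : ℕ) : ZMod n) := by
        rw [← hw, hz]; push_cast; ring
      rw [hz2]
      by_cases hxc : ((p ^ c : ℕ) : ZMod n) ∣ x
      · -- low case
        have hlow := hp p hpp hpn (by rw [← hc]; exact hxc)
        rw [← hc] at hlow
        have hgz : ∀ u : ZMod n, x + (g : ZMod n) * u ≠ 0 := by
          intro u h0
          apply hgx
          have := dvd_add_gcd n g g dvd_rfl x u
          rw [← this, h0]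
          exact dvd_zero _
        have hw' : ∀ j, 0 < j → j ≤ k - 1 → Nat.gcd j n ∣ p ^ c * (M * ν') := by
          intro j hj0 hj1
          exact gcd_dvd_low n p c (c + a') (M * ν') j hpp hn2 hj0 (by omega)
        have h3 := count_low n hn (p ^ c * (M * ν')) (k - 1) hw' (z + ((p ^ c * (M * ν') : ℕ) : ZMod n))
          (by
            rw [hz, ← hw]
            have := hgz (e + ν')
            push_cast
            convert this using 1
            ring)
          (by
            intro h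
            have h5 : z = 0 := by simpa using h
            exact hgz _ h5)
        rw [add_sub_cancel_right] at h3
        exact h3
      · -- unit case
        have hzc : ¬ ((p ^ c : ℕ) : ZMod n) ∣ z := by
          rw [hz, dvd_add_gcd n g (p ^ c) ⟨M, hgg⟩]
          exact hxc
        obtain ⟨u, hu⟩ := exists_unit n p c (c + a') (M * ν') hpp hn2 z hzc
        rw [← hu, b_unit]
  intro u
  have h2 : ∀ e : ℕ, b n (k - 1) (x + (g : ZMod n) * (e : ZMod n)) = b n (k - 1) x := by
    intro e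
    induction e with
    | zero => simp
    | succ e ih =>
      have := (hSmem 1).mp h1 e
      rw [← ih]
      push_cast at this ⊢
      exact this
  have h3 := h2 u.val
  rwa [ZMod.natCast_val, ZMod.cast_id', id_eq] at h3

end Pool.Agent.Helper51.SS
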